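import Pool.Agent.Helper5.SE.P1c

/-!
# Project SE, block P1: the core statement for the projective line
-/

universe u

set_option linter.unusedSectionVars false
set_option maxHeartbeats 1000000

namespace Pool.Agent.SE

open VC Polynomial Pool.Agent.LT Pool.Agent.SC Pool.Agent.GC Pool.Agent.Helper91.Sect Pool.Agent
  Pool.Agent.TW Pool.Agent.TWU Pool.Agent.TWX MulAction

section orb5

variable {k : Type u} [Field k] [CharZero k]

/-- full orbits of roots of `f` under the decomposition group -/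
theorem full_orbit5 {f : k[X]} {W : ValuationSubring (AlgebraicClosure k)}
    (hmove : ∀ T : Finset (AlgebraicClosure k), (∀ b ∈ T, aeval b f = 0) → ∀ i : ℕ,
      (∀ z : k, algebraMap k (AlgebraicClosure k) z ≠ (∏ b ∈ T, (X - C b)).coeff i) →
      ∃ γ : AlgebraicClosure k ≃ₐ[k] AlgebraicClosure k, InDecomp W γ ∧
        γ ((∏ b ∈ T, (X - C b)).coeff i) ≠ (∏ b ∈ T, (X - C b)).coeff i)
    {c : AlgebraicClosure k} (hc : aeval c f = 0) (σ : AlgebraicClosure k ≃ₐ[k] AlgebraicClosure k) :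
    ∃ γ ∈ decG k W, γ c = σ c := by
  classical
  have hfin : (orbit (decG k W) c).Finite := orbit_finite (decG k W) c
  obtain ⟨T, hT⟩ : ∃ T : Finset (AlgebraicClosure k), ∀ b, b ∈ T ↔ ∃ γ ∈ decG k W, γ c = b := by
    refine ⟨hfin.toFinset, fun b => ?_⟩
    rw [Set.Finite.mem_toFinset]
    constructor
    · rintro ⟨γ, rfl⟩
      exact ⟨γ.1, γ.2, rfl⟩
    · rintro ⟨γ, hγ, rfl⟩
      exact ⟨⟨γ, hγ⟩, rfl⟩
  have hroot : ∀ b ∈ T, aeval b f = 0 := by
    intro b hb
    obtain ⟨γ, -, rfl⟩ := (hT b).1 hb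
    have h1 := aeval_algHom_apply (γ : AlgebraicClosure k →ₐ[k] AlgebraicClosure k) c f
    rw [hc, map_zero] at h1
    exact h1
  -- `T` is stable under the decomposition group
  have hstab : ∀ γ : AlgebraicClosure k ≃ₐ[k] AlgebraicClosure k, InDecomp W γ → T.image γ = T := by
    intro γ hγ
    have hγ' : γ ∈ decG k W := hγ
    apply Finset.eq_of_subset_of_card_le
    · intro b hb
      obtain ⟨b', hb', rfl⟩ := Finset.mem_image.1 hb
      obtain ⟨δ, hδ, rfl⟩ := (hT b').1 hb'
      exact (hT _).2 ⟨γ * δ, (decG k W).mul_mem hγ' hδ, rfl⟩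
    · rw [Finset.card_image_of_injective T γ.injective]
  have hpoly : ∀ γ : AlgebraicClosure k ≃ₐ[k] AlgebraicClosure k, InDecomp W γ →
      (∏ b ∈ T, (X - C b)).map (γ : AlgebraicClosure k →+* AlgebraicClosure k) = ∏ b ∈ T, (X - C b) := by
    intro γ hγ
    rw [Polynomial.map_prod]
    have h1 : ∏ b ∈ T, (X - C b) = ∏ b ∈ T.image γ, (X - C b) := by rw [hstab γ hγ]
    rw [h1, Finset.prod_image (fun a _ b _ hab => γ.injective hab)]
    refine Finset.prod_congr rfl fun b _ => ?_
    rw [Polynomial.map_sub, map_X, map_C]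
    rfl
  have hcoef : ∀ i : ℕ, ∃ z : k, algebraMap k (AlgebraicClosure k) z = (∏ b ∈ T, (X - C b)).coeff i := by
    intro i
    by_contra hcon
    push Not at hcon
    obtain ⟨γ, hγ, h1⟩ := hmove T hroot i hcon
    apply h1
    have h2 := congrArg (fun q : (AlgebraicClosure k)[X] => q.coeff i) (hpoly γ hγ)
    simp only [coeff_map] at h2
    exact h2
  choose z hz using hcoef
  -- the polynomial is fixed by `σ`
  have hσ : (∏ b ∈ T, (X - C b)).map (σ : AlgebraicClosure k →+* AlgebraicClosure k) = ∏ b ∈ T, (X - C b) := by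
    ext i
    rw [coeff_map, ← hz i]
    exact σ.commutes (z i)
  have hcT : c ∈ T := (hT c).2 ⟨1, (decG k W).one_mem, rfl⟩
  have h1 : (∏ b ∈ T, (X - C b)).eval c = 0 := by
    rw [eval_prod]
    exact Finset.prod_eq_zero hcT (by rw [eval_sub, eval_X, eval_C, sub_self])
  have h2 : (∏ b ∈ T, (X - C b)).eval (σ c) = 0 := by
    rw [← hσ, eval_map]
    have h3 := hom_eval₂ (∏ b ∈ T, (X - C b)) (RingHom.id (AlgebraicClosure k)) (σ : AlgebraicClosure k →+* AlgebraicClosure k) c
    rw [RingHom.comp_id] at h3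
    have h4 : eval₂ (RingHom.id (AlgebraicClosure k)) c (∏ b ∈ T, (X - C b)) = 0 := h1
    rw [h4, map_zero] at h3
    exact h3.symm
  rw [eval_prod, Finset.prod_eq_zero_iff] at h2
  obtain ⟨b, hb, h3⟩ := h2
  rw [eval_sub, eval_X, eval_C, sub_eq_zero] at h3
  obtain ⟨γ, hγ, h4⟩ := (hT b).1 hb
  exact ⟨γ, hγ, by rw [h4, h3]⟩

end orb5

/-- **Block P1.** -/
theorem p1 : StmtP1 := by
  classical
  intro F k _ _ _ _ hF t hfin v hv0 f hdeg hsep W hFW hfW hlc hdisc hvW hdiscr hmove r P hP hPlc hPr K₁ _ _ x hx hgen e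
  have hk0 : CharZero k := charZero_of_injective_algebraMap (algebraMap F k).injective
  have hred : Red5 W f := ⟨hdeg, hfW, hlc, hdisc⟩
  have hFF := isFF hx hgen
  have hdiv : ∀ s, P s ∣ f ^ (P s).natDegree := fun s => dvd_pow5 (E := AlgebraicClosure k) (hP s) (hPr s)
  choose R hR using hdiv
  set g : K₁ := ∏ s, aeval x (P s) ^ e s with hg
  have hPx : ∀ s, aeval x (P s) ≠ 0 := fun s => aeval_ne hx (hP s)
  have hg0 : g ≠ 0 := Finset.prod_ne_zero_iff.2 fun s _ => zpow_ne_zero _ (hPx s)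
  let cf : k[X] → Finset k := fun p => (Finset.range (p.natDegree + 1)).image p.coeff
  have hcf : ∀ (p : k[X]) (i : ℕ), p.coeff i ≠ 0 → p.coeff i ∈ cf p := by
    intro p i hi
    refine Finset.mem_image_of_mem _ (Finset.mem_range.2 ?_)
    have := le_natDegree_of_ne_zero hi
    omega
  let S : Finset k := Finset.univ.biUnion fun s : Fin r => cf (P s) ∪ cf (R s)
  -- values of polynomials with coefficients in `S`
  have hgood : GoodPoly g x x f S := by
    intro Ω _ _ O hS hxO hfO
    have hval : ∀ p : k[X], (∀ a ∈ cf p, a ∈ S) → algebraMap K₁ Ω (aeval x p) ∈ O := by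
      intro p hp
      rw [aeval_eq_sum_range, map_sum]
      refine sum_mem fun i _ => ?_
      rw [Algebra.smul_def, map_mul, map_pow]
      refine O.mul_mem _ _ ?_ (pow_mem hxO i)
      by_cases hi : p.coeff i = 0
      · rw [hi, map_zero, map_zero]
        exact O.zero_mem
      · exact hS _ (hp _ (hcf p i hi))
    have hPO : ∀ s, O.valuation (algebraMap K₁ Ω (aeval x (P s))) = 1 := by
      intro s
      have h1 := hval (P s) fun a ha => Finset.mem_biUnion.2 ⟨s, Finset.mem_univ s, Finset.mem_union_left _ ha⟩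
      have h2 := hval (R s) fun a ha => Finset.mem_biUnion.2 ⟨s, Finset.mem_univ s, Finset.mem_union_right _ ha⟩
      have h3 : algebraMap K₁ Ω (aeval x (P s)) * algebraMap K₁ Ω (aeval x (R s)) ∉ O.nonunits := by
        rw [← map_mul, ← map_mul, ← hR s, map_pow, map_pow]
        exact pow_notMem_nonunits hfO _
      exact unit_iff5 h1 (notMem_nonunits_of_mul h1 h2 h3).1
    have hgO : O.valuation (algebraMap K₁ Ω g) = 1 := by
      rw [hg, map_prod, map_prod]
      refine Finset.prod_eq_one fun s _ => ?_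
      rw [map_zpow₀, map_zpow₀, hPO s, one_zpow]
    obtain ⟨h1, h2, -, -⟩ := unit_of5 hgO
    exact ⟨h1, h2, hxO, fun σ _ hσ _ => hσ⟩
  have hc : Coord g x x f S := ⟨hg0, hFF, hx, by rw [Set.pair_eq_singleton]; exact hgen, hdeg, hsep, hgood⟩
  -- the data of the places
  have hdat : ∀ P₀ : Place k K₁, ∃ (θ π : K₁) (q p : k[X]), PData g P₀ θ π q p ∧
      ((x⁻¹ ∈ P₀.ring.nonunits ∨ aeval x f ∈ P₀.ring.nonunits) →
        (∀ i, algebraMap k (AlgebraicClosure k) (p.coeff i) ∈ W) ∧
        algebraMap k (AlgebraicClosure k) (p.coeff 0)⁻¹ ∈ W ∧ (q = X ∨ q ∣ f)) := by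
    intro P₀
    by_cases h1 : x⁻¹ ∈ P₀.ring.nonunits
    · obtain ⟨p, hp, h2, h3⟩ := data_inf5 (E := AlgebraicClosure k) (W := W) hx hgen hP hPlc h1 e
      exact ⟨_, _, _, p, hp, fun _ => ⟨h2, h3, Or.inl rfl⟩⟩
    · have hxP : x ∈ P₀.ring := by
        by_contra h2
        exact h1 ((ValuationSubring.mem_nonunits_iff_or _).2 (Or.inr (by rwa [inv_inv])))
      by_cases h2 : aeval x f ∈ P₀.ring.nonunits
      · obtain ⟨h, p, hp, h3, h4, h5⟩ := data_fin5 (E := AlgebraicClosure k) (W := W) hx hgen hP hPlc hred hPr hxP h2 e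
        exact ⟨_, _, h, p, hp, fun _ => ⟨h4, h5, Or.inr h3⟩⟩
      · obtain ⟨θ, π, q, p, hp⟩ := exists_pdata hFF P₀ hg0
        exact ⟨θ, π, q, p, hp, fun h3 => (h3.elim h1 h2).elim⟩
  choose θf πf qf pf hd hbad using hdat
  -- roots of the `q`
  have hroot : ∀ P₀ : Place k K₁, (x⁻¹ ∈ P₀.ring.nonunits ∨ aeval x f ∈ P₀.ring.nonunits) →
      ∀ c : AlgebraicClosure k, eval₂ ((algebraMap k (AlgebraicClosure k)).comp (algebraMap k k)) c (qf P₀) = 0 →
      c = 0 ∨ aeval c f = 0 := by
    intro P₀ hP₀ c hc1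
    rcases (hbad P₀ hP₀).2.2 with h1 | ⟨q', h1⟩
    · left
      rw [h1, eval₂_X] at hc1
      exact hc1
    · right
      rw [Algebra.algebraMap_self, RingHom.comp_id, ← aeval_def] at hc1
      rw [h1, map_mul, hc1, zero_mul]
  have hunit : ∀ {a : k}, W.valuation (algebraMap k (AlgebraicClosure k) a) = 1 →
      algebraMap k (AlgebraicClosure k) a⁻¹ ∈ W := by
    intro a ha
    rw [map_inv₀]
    exact (unit_of5 ha).2.2.1
  refine deg_place (k₀ := k) (K₀ := K₁) (C := AlgebraicClosure k) hc hd hF hfin hFF ?_ hx hv0 hFW ?_ ?_ hvW hdiscr ?_ ?_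
  · rw [eq_top_iff]
    intro z _
    exact IntermediateField.subset_adjoin _ _ ⟨z, rfl⟩
  · intro a ha
    change algebraMap k (AlgebraicClosure k) a ∈ W
    rcases Finset.mem_union.1 ha with h1 | h1
    · unfold goodElts at h1
      rcases Finset.mem_union.1 h1 with h2 | h2
      · obtain ⟨i, -, rfl⟩ := Finset.mem_image.1 h2
        exact hfW i
      · simp only [Finset.mem_insert, Finset.mem_singleton] at h2
        rcases h2 with rfl | rfl | rfl | rfl
        · exact hunit hlc
        · exact hunit hdisc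
        · rw [map_one]
          exact W.one_mem
        · rw [inv_one, map_one]
          exact W.one_mem
    · obtain ⟨s, -, h2⟩ := Finset.mem_biUnion.1 h1
      rcases Finset.mem_union.1 h2 with h3 | h3
      · obtain ⟨i, -, rfl⟩ := Finset.mem_image.1 h3
        exact coeff_mem5 (unit_of5 (hPlc s)).1 (fun b hb => hred.root_mem (hPr s b hb)) i
      · obtain ⟨i, -, rfl⟩ := Finset.mem_image.1 h3
        have hlcR : W.valuation (algebraMap k (AlgebraicClosure k) (R s).leadingCoeff) = 1 := by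
          have h4 := congrArg (fun q : k[X] => W.valuation (algebraMap k (AlgebraicClosure k) q.leadingCoeff)) (hR s)
          simp only [leadingCoeff_pow, leadingCoeff_mul, map_pow, map_mul] at h4
          rw [hlc, hPlc s, one_pow, one_mul] at h4
          exact h4.symm
        refine coeff_mem5 (unit_of5 hlcR).1 (fun b hb => hred.root_mem ?_) i
        have h4 := congrArg (aeval b) (hR s)
        rw [map_mul, hb, mul_zero, map_pow] at h4
        have h5 : (P s).natDegree ≠ 0 := by
          intro h6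
          rw [h6, pow_zero] at h4
          exact one_ne_zero h4
        exact (pow_eq_zero_iff h5).1 h4
  · intro P₀ hP₀
    exact ⟨(hbad P₀ hP₀).1, (hbad P₀ hP₀).2.1⟩
  · intro P₀ hP₀ c hc1 σ hσ
    rcases hroot P₀ hP₀ c hc1 with rfl | h1
    · exact map_zero σ
    · have h2 : aeval (σ c) f = 0 := by
        have h3 := aeval_algHom_apply (σ : AlgebraicClosure k →ₐ[k] AlgebraicClosure k) c f
        rw [h1, map_zero] at h3
        exact h3
      by_contra hne
      have h3 := hred.root_diff h2 h1 hne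
      exact (unit_of5 h3).2.1 (hσ.2 c (hred.root_mem h1))
  · intro P₀ hP₀ c hc1 σ
    rcases hroot P₀ hP₀ c hc1 with rfl | h1
    · exact ⟨1, (decG k W).one_mem, by rw [map_zero, map_zero]⟩
    · exact full_orbit5 hmove h1 σ

end Pool.Agent.SE
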