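import Pool.Agent.Helper5.SE.Ch3
import Pool.Agent.Helper34.SE.Alg

/-!
# Project SE, block CHART: the places in the domain of a chart
-/

universe u

set_option linter.unusedSectionVars false
set_option maxHeartbeats 1000000

namespace Pool.Agent.SE

open VC Polynomial Pool.Agent.LT Pool.Agent.SC Pool.Agent.GC Pool.Agent.Helper91.Sect Pool.Agent
  Pool.Agent.TWX Pool.Agent.TWT Pool.Agent.TWH Pool.Agent.TWU

/-- the coefficients of a polynomial -/
theorem exists_cf1 {R : Type u} [CommRing R] [DecidableEq R] (p : R[X]) :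
    ∃ S : Finset R, ∀ i, p.coeff i ∈ S := by
  refine ⟨insert 0 (p.support.image p.coeff), fun i => ?_⟩
  by_cases h0 : p.coeff i = 0
  · rw [h0]
    exact Finset.mem_insert_self _ _
  · exact Finset.mem_insert_of_mem (Finset.mem_image_of_mem _ (mem_support_iff.2 h0))

theorem exists_cf2 {R : Type u} [CommRing R] [DecidableEq R] (p : R[X][X]) :
    ∃ S : Finset R, ∀ i j, (p.coeff i).coeff j ∈ S := by
  choose S hS using fun i => exists_cf1 (p.coeff i)
  refine ⟨insert 0 (p.support.biUnion S), fun i j => ?_⟩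
  by_cases h0 : p.coeff i = 0
  · rw [h0, coeff_zero]
    exact Finset.mem_insert_self _ _
  · exact Finset.mem_insert_of_mem (Finset.mem_biUnion.2 ⟨i, mem_support_iff.2 h0, hS _ _⟩)

theorem chart (hcfvl : StmtCFVL.{u}) : StmtChart.{u} := by
  classical
  intro k₀ _ _ N r L _ _ X₀ Z₀ hLF hX₀ hgen₀ P hP ff₁ hff₁ x' z' Φ hx' hgen' hΦm hΦi hΦ0
  set R := MvPolynomial (Fin N) k₀ with hR
  -- the plane model
  obtain ⟨M, d, hd, hM, hMdeg, hMΦ, hlead, hMmap⟩ := exists_modelM (R := R) (PF k₀ N) hx' hΦm hΦi hΦ0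
  have hevM : evr (PF k₀ N) x' z' M = 0 := by
    change ev2 x' z' (M.map (mapRingHom (algebraMap R (PF k₀ N)))) = 0
    rw [hMmap, map_mul, hΦ0, mul_zero]
  have hX₀0 : X₀ ≠ 0 := by
    rintro rfl
    exact hX₀ isAlgebraic_zero
  -- fractions
  obtain ⟨GX, DX, hDX, hGX⟩ := exists_fracM (R := R) (PF k₀ N) hx' hM hMdeg hevM hgen' X₀
  obtain ⟨GZ, DZ, hDZ, hGZ⟩ := exists_fracM (R := R) (PF k₀ N) hx' hM hMdeg hevM hgen' Z₀
  choose G D hD hGD using fun s => exists_fracM (R := R) (PF k₀ N) hx' hM hMdeg hevM hgen'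
    (evg X₀ Z₀ (P s))
  -- relations
  obtain ⟨CX, hCX0, hCX⟩ := exists_relM (R := R) (PF k₀ N) hx' hM hMdeg hevM hgen' (inv_ne_zero hX₀0)
  have hyF0 : evr1 (PF k₀ N) X₀ ff₁ ≠ 0 := evr1_ne (PF k₀ N) hX₀ hff₁
  obtain ⟨CF, hCF0, hCF⟩ := exists_relM (R := R) (PF k₀ N) hx' hM hMdeg hevM hgen' hyF0
  -- the functions
  set Gt : Fin (r + r) → R[X][X] := Fin.append G (fun s => C (D s)) with hGt
  have hGt0 : ∀ s, evr (PF k₀ N) x' z' (Gt s) ≠ 0 := by
    intro s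
    refine Fin.addCases (fun i => ?_) (fun i => ?_) s
    · rw [hGt, Fin.append_left, ← hGD]
      exact mul_ne_zero (hP i) (evr1_ne (PF k₀ N) hx' (hD i))
    · rw [hGt, Fin.append_right, evr_C]
      exact evr1_ne (PF k₀ N) hx' (hD i)
  choose G' G'' n hn hG using fun s => exists_invM (R := R) (PF k₀ N) hx' hM hMdeg hevM (hGt0 s)
  -- the radical
  have hprod : CX.coeff 0 * CF.coeff 0 * ∏ s, n s ≠ 0 :=
    mul_ne_zero (mul_ne_zero hCX0 hCF0) (Finset.prod_ne_zero_iff.2 fun s _ => hn s)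
  obtain ⟨f, Rr, b, m, hb, hfdeg, hfdisc, hrad⟩ := exists_rad
    (Q := X * (CX.coeff 0 * CF.coeff 0 * ∏ s, n s)) (by
      rw [natDegree_X_mul hprod]
      omega)
  have hf0 : f ≠ 0 := ne_zero_of_natDegree_gt (n := 0) (by omega)
  -- the relation for the derivative
  obtain ⟨χ₀, hχ₀, A, B, hχ₀A⟩ := alg f hf0 M d hd hlead (derivative M)
  obtain ⟨χ, hχ⟩ : X ^ χ₀.natTrailingDegree ∣ χ₀ :=
    X_pow_dvd_iff.2 fun i hi => coeff_eq_zero_of_lt_natTrailingDegree hi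
  have hχc : χ.coeff 0 ≠ 0 := by
    intro h1
    have h3 := coeff_X_pow_mul χ χ₀.natTrailingDegree 0
    rw [zero_add, ← hχ, h1] at h3
    exact trailingCoeff_nonzero_iff_nonzero.2 hχ₀ h3
  have hχ0 : χ ≠ 0 := by
    rintro rfl
    exact hχc (coeff_zero 0)
  rw [hχ] at hχ₀A
  -- the relations for `x + l z`
  choose χl hχl0 Al Bl hχl using fun l : ℕ => alg f hf0 M d hd hlead (C X + C (C (l : R)) * X)
  set fR : R[X] := ∏ l ∈ Finset.range ((f.natDegree * M.natDegree) ^ 2 + 1), χl l with hfR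
  have hfR0 : fR ≠ 0 := Finset.prod_ne_zero_iff.2 fun l _ => hχl0 l
  -- the finite sets
  obtain ⟨S₁, hS₁⟩ := exists_cf1 f
  choose S₂ hS₂ using fun s => exists_cf1 (n s)
  obtain ⟨S₃, hS₃⟩ := exists_cf2 M
  choose S₄ hS₄ using fun s => exists_cf2 (Gt s)
  choose S₅ hS₅ using fun s => exists_cf2 (G' s)
  choose S₆ hS₆ using fun s => exists_cf2 (G'' s)
  obtain ⟨S₇, hS₇⟩ := exists_cf1 χ
  set U : Finset R := {b, f.leadingCoeff, f.discr, d, χ.leadingCoeff, χ.coeff 0} ∪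
    Finset.univ.image (fun s => (n s).leadingCoeff) with hU
  set E : Finset R := U ∪ (S₁ ∪ (Finset.univ.biUnion S₂ ∪ (S₃ ∪ (Finset.univ.biUnion S₄ ∪
    (Finset.univ.biUnion S₅ ∪ (Finset.univ.biUnion S₆ ∪ S₇)))))) with hE
  set w : L := ev2 x' z' (derivative Φ) with hw
  set cX : L := evr1 (PF k₀ N) x' (CX.coeff 0) with hcX
  set T : Finset L := {x', w, z', X₀, cX, evr1 (PF k₀ N) x' DX, evr1 (PF k₀ N) x' DZ} ∪
    Finset.univ.image (fun s => evr1 (PF k₀ N) x' (D s)) with hT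
  have hTD : ∀ s, evr1 (PF k₀ N) x' (D s) ∈ T := fun s =>
    Finset.mem_union_right _ (Finset.mem_image_of_mem _ (Finset.mem_univ s))
  have hUn : ∀ s, (n s).leadingCoeff ∈ U := fun s =>
    Finset.mem_union_right _ (Finset.mem_image_of_mem (fun s => (n s).leadingCoeff) (Finset.mem_univ s))
  refine ⟨T, fR, E, U, by rw [hT]; simp, by rw [hT]; simp, hfR0, Finset.subset_union_left, ?_, ?_⟩
  · rw [hU]
    intro h0
    rcases Finset.mem_union.1 h0 with h1 | h1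
    · simp only [Finset.mem_insert, Finset.mem_singleton] at h1
      rcases h1 with h1 | h1 | h1 | h1 | h1 | h1
      · exact hb h1.symm
      · exact (leadingCoeff_ne_zero.2 hf0) h1.symm
      · exact hfdisc h1.symm
      · exact hd h1.symm
      · exact (leadingCoeff_ne_zero.2 hχ0) h1.symm
      · exact hχc h1.symm
    · obtain ⟨s, -, h2⟩ := Finset.mem_image.1 h1
      exact (leadingCoeff_ne_zero.2 (hn s)) h2
  intro k K₁ _ _ _ _ hFF ι a x z hx hgen B₀ sp hsp hTB hXB hZB hspX hspZ hUne P₁ hor hx'P hwP W hWE hWU e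
  set φ := evp ι a with hφ
  have hx'B := (hTB x' (by rw [hT]; simp)).1
  have hz'B := (hTB z' (by rw [hT]; simp)).1
  set ξ : K₁ := sp ⟨x', hx'B⟩ with hξ
  set ζ : K₁ := sp ⟨z', hz'B⟩ with hζ
  have hξP : ξ ∈ P₁.ring := hx'P hx'B
  -- the units
  have hφb : φ b ≠ 0 := hUne b (by rw [hU]; simp)
  have hφf : φ f.leadingCoeff ≠ 0 := hUne _ (by rw [hU]; simp)
  have hφd : φ d ≠ 0 := hUne d (by rw [hU]; simp)
  have hφn : ∀ s, φ (n s).leadingCoeff ≠ 0 := fun s => hUne _ (hUn s)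
  -- evaluations
  have hM0 : ev3 ι a ξ ζ M = 0 := by
    obtain ⟨h1, h2⟩ := hsp.evr' hx'B hz'B M
    rw [← h2]
    have h3 : (⟨evr (PF k₀ N) x' z' M, h1⟩ : B₀) = 0 := Subtype.ext hevM
    rw [h3, map_zero]
  have hspne : ∀ p : R[X], evr1 (PF k₀ N) x' p ∈ T → p ≠ 0 → aeval ξ (p.map φ) ≠ 0 := by
    intro p hp hp0
    obtain ⟨h1, h2⟩ := hsp.evr1 hx'B p
    rw [← h2]
    exact sp_ne_zero h1 (hTB _ hp).2 (evr1_ne (PF k₀ N) hx' hp0)
  have hxinv : sp ⟨X₀⁻¹, (hTB X₀ (by rw [hT]; simp)).2⟩ = x⁻¹ := by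
    rw [sp_inv hXB _ hX₀0, hspX]
  have hCXa : ev3 ι a ξ x⁻¹ CX = 0 := by
    obtain ⟨h1, h2⟩ := hsp.evr' hx'B (hTB X₀ (by rw [hT]; simp)).2 CX
    rw [hxinv] at h2
    rw [← h2]
    have h3 : (⟨evr (PF k₀ N) x' X₀⁻¹ CX, h1⟩ : B₀) = 0 := Subtype.ext hCX
    rw [h3, map_zero]
  have hCFa : ev3 ι a ξ (aeval x (ff₁.map φ)) CF = 0 := by
    obtain ⟨h1, h2⟩ := hsp.evr1 hXB ff₁
    rw [hspX] at h2
    obtain ⟨h3, h4⟩ := hsp.evr' hx'B h1 CF
    rw [h2] at h4
    rw [← h4]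
    have h5 : (⟨evr (PF k₀ N) x' (evr1 (PF k₀ N) X₀ ff₁) CF, h3⟩ : B₀) = 0 := Subtype.ext hCF
    rw [h5, map_zero]
  have hfrac : ∀ {y : L} (hy : y ∈ B₀) {G₁ : R[X][X]} {D₁ : R[X]},
      y * evr1 (PF k₀ N) x' D₁ = evr (PF k₀ N) x' z' G₁ →
      sp ⟨y, hy⟩ * aeval ξ (D₁.map φ) = ev3 ι a ξ ζ G₁ := by
    intro y hy G₁ D₁ h0
    obtain ⟨h1, h2⟩ := hsp.evr1 hx'B D₁
    obtain ⟨h3, h4⟩ := hsp.evr' hx'B hz'B G₁
    rw [← h2, ← h4, ← map_mul]
    congr 1
    exact Subtype.ext h0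
  -- `ξ` is transcendental and `K₁ = k(ξ, ζ)`
  have hcX0 : aeval ξ ((CX.coeff 0).map φ) ≠ 0 := hspne _ (by rw [hT]; simp [hcX]) hCX0
  have hξt : Transcendental k ξ := by
    refine transc_of_rel ι a ?_ hCXa hcX0
    intro h1
    exact hx (inv_inv x ▸ h1.inv)
  have hgenξ : IntermediateField.adjoin k {ξ, ζ} = ⊤ := by
    have hev : ∀ p : R[X][X], ev3 ι a ξ ζ p ∈ IntermediateField.adjoin k {ξ, ζ} := by
      have hξm : ξ ∈ IntermediateField.adjoin k {ξ, ζ} := IntermediateField.subset_adjoin _ _ (by simp)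
      have hζm : ζ ∈ IntermediateField.adjoin k {ξ, ζ} := IntermediateField.subset_adjoin _ _ (by simp)
      intro p
      rw [ev3_eq, eval_eq_sum_range]
      refine sum_mem fun i _ => mul_mem ?_ (pow_mem hζm _)
      rw [coeff_map, ev3x_apply, aeval_eq_sum_range]
      refine sum_mem fun j _ => ?_
      rw [Algebra.smul_def]
      exact mul_mem (IntermediateField.algebraMap_mem _ _) (pow_mem hξm _)
    have hdiv : ∀ {y : K₁} {G₁ : R[X][X]} {D₁ : R[X]}, y * aeval ξ (D₁.map φ) = ev3 ι a ξ ζ G₁ →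
        aeval ξ (D₁.map φ) ≠ 0 → y ∈ IntermediateField.adjoin k {ξ, ζ} := by
      intro y G₁ D₁ h1 h2
      have h3 : y = ev3 ι a ξ ζ G₁ / ev3 ι a ξ ζ (C D₁) := by
        rw [ev3_C, ← h1, mul_div_cancel_right₀ _ h2]
      rw [h3]
      exact div_mem (hev _) (hev _)
    rw [eq_top_iff, ← hgen, IntermediateField.adjoin_le_iff]
    intro y hy
    rcases hy with rfl | hy
    · have h1 := hfrac hXB hGX
      rw [hspX] at h1
      exact hdiv h1 (hspne _ (by rw [hT]; simp) hDX)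
    · rw [Set.mem_singleton_iff] at hy
      subst hy
      have h1 := hfrac hZB hGZ
      rw [hspZ] at h1
      exact hdiv h1 (hspne _ (by rw [hT]; simp) hDZ)
  -- the derivative
  have hder : ev3 ι a ξ ζ (derivative M) ∉ P₁.ring.nonunits := by
    have hwB := (hTB w (by rw [hT]; simp)).1
    have h1 := hwP hwB
    obtain ⟨h2, h3⟩ := hsp.evr' hx'B hz'B (derivative M)
    have h4 : evr (PF k₀ N) x' z' (derivative M) =
        algebraMap (PF k₀ N) L (algebraMap R (PF k₀ N) d) * w := by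
      change ev2 x' z' ((derivative M).map (mapRingHom (algebraMap R (PF k₀ N)))) = _
      rw [← derivative_map, hMmap, derivative_C_mul, map_mul]
      congr 1
      unfold ev2
      rw [coe_eval₂RingHom, eval₂_C]
      change aeval x' (C _) = _
      rw [aeval_C]
    have h5 : (⟨_, h2⟩ : B₀) = ⟨_, hsp.mem d⟩ * ⟨w, hwB⟩ := Subtype.ext h4
    rw [← h3, h5, map_mul, hsp.map]
    intro h6
    apply h1
    have h7 : sp ⟨w, hwB⟩ = algebraMap k K₁ (φ d)⁻¹ * (algebraMap k K₁ (φ d) * sp ⟨w, hwB⟩) := by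
      rw [← mul_assoc, ← map_mul, inv_mul_cancel₀ hφd, map_one, one_mul]
    rw [h7, mul_comm]
    exact nonunit_mul h6 (P₁.algebraMap_mem _)
  -- roots of the factors
  have hrad' : (X * (CX.coeff 0 * CF.coeff 0 * ∏ s, n s) * Rr).map φ = (C b * f ^ m).map φ := by
    rw [hrad]
  have hroots : ∀ (K : Type u) [Field K] [Algebra k K] (c : K) (q : R[X]),
      q ∣ X * (CX.coeff 0 * CF.coeff 0 * ∏ s, n s) → aeval c (q.map φ) = 0 → aeval c (f.map φ) = 0 := by
    rintro K _ _ c q ⟨q', hq'⟩ hc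
    have h1 := congrArg (aeval c) hrad'
    rw [hq', Polynomial.map_mul, Polynomial.map_mul, map_mul, map_mul, hc, zero_mul, zero_mul,
      Polynomial.map_mul, Polynomial.map_pow, map_C, map_mul, map_pow, aeval_C] at h1
    rcases mul_eq_zero.1 h1.symm with h2 | h2
    · exact absurd h2 ((_root_.map_ne_zero _).2 hφb)
    · exact eq_zero_of_pow_eq_zero h2
  have hnonunit : ∀ q : R[X], q ∣ X * (CX.coeff 0 * CF.coeff 0 * ∏ s, n s) →
      aeval ξ (q.map φ) ∈ P₁.ring.nonunits → aeval ξ (f.map φ) ∈ P₁.ring.nonunits := by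
    rintro q ⟨q', hq'⟩ hc
    obtain ⟨ψ, hψ⟩ := exists_resMap hFF P₁ (AlgebraicClosure k)
    have h1 := (hψ.aeval ⟨ξ, hξP⟩ (q.map φ)).2 hc
    exact (hψ.aeval ⟨ξ, hξP⟩ (f.map φ)).1 (hroots _ _ q ⟨q', hq'⟩ h1)
  have hfP : aeval ξ (f.map φ) ∈ P₁.ring.nonunits := by
    rcases hor with h1 | h1
    · exact hnonunit (CX.coeff 0) ⟨X * (CF.coeff 0 * ∏ s, n s), by ring⟩
        (nonunit_of_rel ι a P₁ hξP h1 hCXa)
    · exact hnonunit (CF.coeff 0) ⟨X * (CX.coeff 0 * ∏ s, n s), by ring⟩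
        (nonunit_of_rel ι a P₁ hξP h1 hCFa)
  have hnf : ∀ s (c : AlgebraicClosure k), aeval c ((n s).map φ) = 0 → aeval c (f.map φ) = 0 := by
    intro s c hc
    refine hroots _ c (n s) ?_ hc
    exact Dvd.dvd.mul_left (Dvd.dvd.mul_left (Finset.dvd_prod_of_mem n (Finset.mem_univ s)) _) _
  obtain ⟨θ, π, q, p, hPD, hq, hW⟩ := chart_place hcfvl ι a hFF hξt hgenξ hlead hM0 hφd hfdeg hφf hG hφn
    hnf hχ₀A hχl P₁ hξP hder hfP (Fin.append e (fun s => -e s))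
  refine ⟨θ, π, q, p, ?_, ?_, ?_⟩
  · -- the function
    have h1 : ∏ s, ev3 ι a x z (P s) ^ e s =
        ∏ s, ev3 ι a ξ ζ (Gt s) ^ (Fin.append e (fun s => -e s)) s := by
      rw [Fin.prod_univ_add]
      simp only [hGt, Fin.append_left, Fin.append_right]
      rw [← Finset.prod_mul_distrib]
      refine Finset.prod_congr rfl fun s _ => ?_
      obtain ⟨h2, h3⟩ := hsp.evr' hXB hZB (P s)
      rw [hspX, hspZ] at h3
      have h4 := hfrac h2 (hGD s)
      rw [h3] at h4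
      have h5 := hspne _ (hTD s) (hD s)
      rw [← h4, ev3_C, mul_zpow, zpow_neg, mul_assoc, mul_inv_cancel₀ (zpow_ne_zero _ h5), mul_one]
    rw [h1]
    exact hPD
  · intro c hc
    obtain ⟨l, hl, h1⟩ := hq c hc
    rw [hfR, Polynomial.map_prod, map_prod]
    exact Finset.prod_eq_zero (Finset.mem_range.2 (by omega)) h1
  · refine hW W (fun i => hWE _ ?_) (hWU _ (by rw [hU]; simp)) (hWU _ (by rw [hU]; simp))
      (fun s i => hWE _ ?_) (fun s => hWU _ (hUn s)) (fun i j => hWE _ ?_) (hWU _ (by rw [hU]; simp))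
      (fun s i j => hWE _ ?_) (fun s i j => hWE _ ?_) (fun s i j => hWE _ ?_) (fun i => hWE _ ?_)
      (hWU _ (by rw [hU]; simp)) (hWU _ (by rw [hU]; simp))
    · rw [hE]; simp only [Finset.mem_union]
      exact Or.inr (Or.inl (hS₁ i))
    · rw [hE]; simp only [Finset.mem_union]
      exact Or.inr (Or.inr (Or.inl (Finset.mem_biUnion.2 ⟨s, Finset.mem_univ _, hS₂ s i⟩)))
    · rw [hE]; simp only [Finset.mem_union]
      exact Or.inr (Or.inr (Or.inr (Or.inl (hS₃ i j))))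
    · rw [hE]; simp only [Finset.mem_union]
      exact Or.inr (Or.inr (Or.inr (Or.inr (Or.inl
        (Finset.mem_biUnion.2 ⟨s, Finset.mem_univ _, hS₄ s i j⟩)))))
    · rw [hE]; simp only [Finset.mem_union]
      exact Or.inr (Or.inr (Or.inr (Or.inr (Or.inr (Or.inl
        (Finset.mem_biUnion.2 ⟨s, Finset.mem_univ _, hS₅ s i j⟩))))))
    · rw [hE]; simp only [Finset.mem_union]
      exact Or.inr (Or.inr (Or.inr (Or.inr (Or.inr (Or.inr (Or.inl
        (Finset.mem_biUnion.2 ⟨s, Finset.mem_univ _, hS₆ s i j⟩)))))))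
    · rw [hE]; simp only [Finset.mem_union]
      exact Or.inr (Or.inr (Or.inr (Or.inr (Or.inr (Or.inr (Or.inr (hS₇ i)))))))

end Pool.Agent.SE
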