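import Pool.Agent.Helper5.SE.P1
import Pool.Agent.Helper10.SE.Defs6
import Pool.Agent.Helper10.SE.R1

/-!
# Project SE, version 4, block CF: assembly of the core statement for families of functions
-/

universe u

set_option linter.unusedSectionVars false
set_option maxHeartbeats 1000000

namespace Pool.Agent.SE

open VC Polynomial Pool.Agent.LT Pool.Agent.SC Pool.Agent.GC Pool.Agent.Helper91.Sect Pool.Agent
  Pool.Agent.TW Pool.Agent.TWU Pool.Agent.TWX MulAction

section restr5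

variable {k₀ K₀ k K₁ : Type u} [Field k₀] [Field K₀] [Algebra k₀ K₀] [Field k] [Field K₁] [Algebra k K₁]
  [Algebra k₀ k] [Algebra K₀ K₁] [Algebra k₀ K₁] [IsScalarTower k₀ k K₁] [IsScalarTower k₀ K₀ K₁]

/-- the trace of a place on a subfield, if it is not trivial -/
theorem exists_trace5 (P₁ : Place k K₁) {z : K₀} (hz : z ≠ 0) (hzn : algebraMap K₀ K₁ z ∈ P₁.ring.nonunits) :
    ∃ P₀ : Place k₀ K₀, (∀ y : K₀, y ∈ P₀.ring ↔ algebraMap K₀ K₁ y ∈ P₁.ring) ∧
      ∀ y : K₀, y ∈ P₀.ring.nonunits ↔ algebraMap K₀ K₁ y ∈ P₁.ring.nonunits := by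
  have hmem : ∀ y : K₀, y ∈ P₁.ring.comap (algebraMap K₀ K₁) ↔ algebraMap K₀ K₁ y ∈ P₁.ring :=
    fun y => ValuationSubring.mem_comap
  have hnon : ∀ y : K₀, y ∈ (P₁.ring.comap (algebraMap K₀ K₁)).nonunits ↔ algebraMap K₀ K₁ y ∈ P₁.ring.nonunits := by
    intro y
    rw [ValuationSubring.mem_nonunits_iff_or, ValuationSubring.mem_nonunits_iff_or, hmem, map_inv₀,
      map_eq_zero_iff _ (algebraMap K₀ K₁).injective]
  refine ⟨⟨P₁.ring.comap (algebraMap K₀ K₁), ?_, ?_⟩, hmem, hnon⟩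
  · intro a
    rw [hmem, ← IsScalarTower.algebraMap_apply k₀ K₀ K₁, IsScalarTower.algebraMap_apply k₀ k K₁]
    exact P₁.algebraMap_mem _
  · intro htop
    have h1 : z⁻¹ ∈ P₁.ring.comap (algebraMap K₀ K₁) := by
      rw [htop]
      trivial
    have h2 := (hnon z).2 hzn
    rw [ValuationSubring.mem_nonunits_iff_or] at h2
    rcases h2 with h2 | h2
    · exact hz h2
    · exact h2 h1

end restr5

/-- **Block CF.** -/
theorem cf (ha : StmtCFA.{u}) (hb : StmtCFB.{u}) : StmtCF.{u} := by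
  classical
  intro k₀ K₀ _ _ _ _ hK₀ N r g hg
  obtain ⟨x, hx, -⟩ := id hK₀
  obtain ⟨z₀, f₀, ff₁, fR, EA, UA, hf₀, hfR, hdeg1, hlc1, hdisc1, hcoef1, hUEA, h0A, hA⟩ := ha hK₀ hx g hg
  have htx : Transcendental k₀ x⁻¹ := fun h => hx (by rw [← inv_inv x]; exact h.inv)
  have hfX : 1 ≤ (f₀ * X).natDegree := by
    rw [natDegree_mul hf₀ X_ne_zero, natDegree_X]
    omega
  have htf : Transcendental k₀ (aeval x (f₀ * X)) := hx.aeval (f₀ * X) (by omega)
    (mem_nonZeroDivisors_of_ne_zero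
      (leadingCoeff_ne_zero.2 (ne_zero_of_natDegree_gt (n := 0) (by omega))))
  let OO : Set (Place k₀ K₀) := {O | x⁻¹ ∈ O.ring.nonunits} ∪ {O | aeval x (f₀ * X) ∈ O.ring.nonunits}
  have hOO : OO.Finite := (finite_zeros hK₀ htx).union (finite_zeros hK₀ htf)
  choose q₀ E₀ U₀ hq₀ hUE₀ h0U₀ hB using fun P₀ : Place k₀ K₀ => hb hK₀ g hg P₀
  -- the polynomial
  let Q : (MvPolynomial (Fin N) k₀)[X] := ff₁ * fR * ∏ O ∈ hOO.toFinset, (q₀ O).map MvPolynomial.C
  have hCinj : Function.Injective (MvPolynomial.C : k₀ →+* MvPolynomial (Fin N) k₀) := MvPolynomial.C_injective _ _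
  have hff₁0 : ff₁ ≠ 0 := ne_zero_of_natDegree_gt (n := 0) (by omega)
  have hprod0 : ∏ O ∈ hOO.toFinset, (q₀ O).map (MvPolynomial.C : k₀ →+* MvPolynomial (Fin N) k₀) ≠ 0 :=
    Finset.prod_ne_zero_iff.2 fun O _ => (Polynomial.map_ne_zero_iff hCinj).2 (hq₀ O)
  have hQ0 : 1 ≤ Q.natDegree := by
    change 1 ≤ (ff₁ * fR * ∏ O ∈ hOO.toFinset, (q₀ O).map MvPolynomial.C).natDegree
    rw [natDegree_mul (mul_ne_zero hff₁0 hfR) hprod0, natDegree_mul hff₁0 hfR]
    omega
  obtain ⟨ff, R, b, M, hb0, hffdeg, hffdisc, hQR⟩ := exists_rad hQ0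
  have hff0 : ff ≠ 0 := ne_zero_of_natDegree_gt (n := 0) (by omega)
  let cf : Finset (MvPolynomial (Fin N) k₀) := (Finset.range (ff.natDegree + 1)).image ff.coeff
  let U : Finset (MvPolynomial (Fin N) k₀) := UA ∪ (hOO.toFinset.biUnion U₀ ∪ {ff.leadingCoeff, ff.discr, b})
  let E : Finset (MvPolynomial (Fin N) k₀) := EA ∪ (hOO.toFinset.biUnion E₀ ∪ (insert 0 cf ∪ U))
  have hU1 : ∀ h ∈ UA, h ∈ U := fun h hh => Finset.mem_union_left _ hh
  have hU2 : ∀ O ∈ hOO.toFinset, ∀ h ∈ U₀ O, h ∈ U := fun O hO h hh =>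
    Finset.mem_union_right _ (Finset.mem_union_left _ (Finset.mem_biUnion.2 ⟨O, hO, hh⟩))
  have hU3 : ∀ h ∈ ({ff.leadingCoeff, ff.discr, b} : Finset (MvPolynomial (Fin N) k₀)), h ∈ U := fun h hh =>
    Finset.mem_union_right _ (Finset.mem_union_right _ hh)
  have hE1 : ∀ h ∈ EA, h ∈ E := fun h hh => Finset.mem_union_left _ hh
  have hE2 : ∀ O ∈ hOO.toFinset, ∀ h ∈ E₀ O, h ∈ E := fun O hO h hh =>
    Finset.mem_union_right _ (Finset.mem_union_left _ (Finset.mem_biUnion.2 ⟨O, hO, hh⟩))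
  have hE3 : ∀ i, ff.coeff i ∈ E := by
    intro i
    refine Finset.mem_union_right _ (Finset.mem_union_right _ (Finset.mem_union_left _ ?_))
    by_cases hi : ff.coeff i = 0
    · rw [hi]
      exact Finset.mem_insert_self _ _
    · refine Finset.mem_insert_of_mem (Finset.mem_image_of_mem _ (Finset.mem_range.2 ?_))
      have := le_natDegree_of_ne_zero hi
      omega
  refine ⟨ff, E, U, hffdeg, hU3 _ (by simp), hU3 _ (by simp), hE3,
    fun h hh => Finset.mem_union_right _ (Finset.mem_union_right _ (Finset.mem_union_right _ hh)), ?_, ?_⟩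
  · intro h0
    rcases Finset.mem_union.1 h0 with h1 | h1
    · exact h0A h1
    · rcases Finset.mem_union.1 h1 with h2 | h2
      · obtain ⟨O, -, h3⟩ := Finset.mem_biUnion.1 h2
        exact h0U₀ O h3
      · simp only [Finset.mem_insert, Finset.mem_singleton] at h2
        rcases h2 with h2 | h2 | h2
        · exact leadingCoeff_ne_zero.2 hff0 h2.symm
        · exact hffdisc h2.symm
        · exact hb0 h2.symm
  intro F k K₁ _ _ _ _ _ _ _ _ _ _ hF t hfin hgenK htr a v hv0 W hW e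
  have hk0 : CharZero k := charZero_of_injective_algebraMap (algebraMap k₀ k).injective
  have hF0 : CharZero F := by
    refine ⟨fun m n hmn => ?_⟩
    have h1 := congrArg (algebraMap F k) hmn
    rw [map_natCast, map_natCast] at h1
    exact Nat.cast_injective h1
  set φ := evp (algebraMap k₀ k) a with hφ
  have hne : ∀ h ∈ U, φ h ≠ 0 := by
    intro h hh h0
    have h1 := hW.unit h hh
    rw [← hφ, h0, map_zero, map_zero] at h1
    exact zero_ne_one h1
  obtain ⟨hcoord, hplaces⟩ := hA k K₁ hgenK htr a (fun h hh => hne h (hU1 h hh))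
  have hc := hcoord e
  -- the reduction of `ff(a)`
  have hlcff : φ ff.leadingCoeff ≠ 0 := hne _ (hU3 _ (by simp))
  have hred : Red5 W (ff.map φ) := by
    refine ⟨?_, ?_, ?_, ?_⟩
    · rw [natDegree_map_of_leadingCoeff_ne_zero φ hlcff]
      exact hffdeg
    · intro i
      rw [coeff_map]
      exact hW.mem _ (hE3 i)
    · rw [leadingCoeff_map_of_leadingCoeff_ne_zero φ hlcff]
      exact hW.unit _ (hU3 _ (by simp))
    · rw [discr_map_of_lc φ ff (by omega) hlcff]
      exact hW.unit _ (hU3 _ (by simp))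
  have hlcff₁ : φ ff₁.leadingCoeff ≠ 0 := hne _ (hU1 _ hlc1)
  -- roots of the factors of `Q` are roots of `ff(a)`
  have hroots : ∀ (c : AlgebraicClosure k) (q : (MvPolynomial (Fin N) k₀)[X]), q ∣ Q → aeval c (q.map φ) = 0 →
      aeval c (ff.map φ) = 0 := by
    rintro c q ⟨q', hq'⟩ hc1
    have h1 := congrArg (fun p : (MvPolynomial (Fin N) k₀)[X] => aeval c (p.map φ)) hQR
    simp only [hq', Polynomial.map_mul, map_mul, hc1, zero_mul, Polynomial.map_pow, map_pow, map_C, aeval_C] at h1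
    rcases mul_eq_zero.1 h1.symm with h2 | h2
    · exfalso
      rw [map_eq_zero_iff _ (algebraMap k (AlgebraicClosure k)).injective] at h2
      exact hne b (hU3 _ (by simp)) h2
    · exact eq_zero_of_pow_eq_zero h2
  -- the data of the places
  have hdat : ∀ P₁ : Place k K₁, ∃ (θ π : K₁) (q p : k[X]), PData (∏ s, famp (K₁ := K₁) a (g s) ^ e s) P₁ θ π q p ∧
      (((algebraMap K₀ K₁ x)⁻¹ ∈ P₁.ring.nonunits ∨ aeval (algebraMap K₀ K₁ x) (ff₁.map φ) ∈ P₁.ring.nonunits) →
        (∀ i, algebraMap k (AlgebraicClosure k) (p.coeff i) ∈ W) ∧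
        algebraMap k (AlgebraicClosure k) (p.coeff 0)⁻¹ ∈ W ∧
        ∀ c : AlgebraicClosure k, aeval c q = 0 → aeval c (ff.map φ) = 0) := by
    intro P₁
    -- the places over a place in `OO`
    have hover : ∀ P₀ : Place k₀ K₀, P₀ ∈ hOO.toFinset → (∀ z : K₀, z ∈ P₀.ring ↔ algebraMap K₀ K₁ z ∈ P₁.ring) →
        ∃ (θ π : K₁) (q p : k[X]), PData (∏ s, famp (K₁ := K₁) a (g s) ^ e s) P₁ θ π q p ∧
        ((∀ i, algebraMap k (AlgebraicClosure k) (p.coeff i) ∈ W) ∧
        algebraMap k (AlgebraicClosure k) (p.coeff 0)⁻¹ ∈ W ∧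
        ∀ c : AlgebraicClosure k, aeval c q = 0 → aeval c (ff.map φ) = 0) := by
      intro P₀ hP₀ hlies
      obtain ⟨θ, π, q, p, hp, h1, h2, h3⟩ := hB P₀ k K₁ hc.ff hgenK a W (fun h hh => hW.mem h (hE2 P₀ hP₀ h hh))
        (fun h hh => hW.unit h (hU2 P₀ hP₀ h hh)) P₁ hlies e
      refine ⟨θ, π, q, p, hp, h2, h3, fun c hc1 => ?_⟩
      refine hroots c ((q₀ P₀).map MvPolynomial.C) (Dvd.dvd.mul_left (Finset.dvd_prod_of_mem _ hP₀) _) ?_
      rw [Polynomial.map_map, aeval_def, eval₂_map]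
      have h4 : (algebraMap k (AlgebraicClosure k)).comp (φ.comp MvPolynomial.C) =
          (algebraMap k (AlgebraicClosure k)).comp (algebraMap k₀ k) := by
        ext z
        change algebraMap k (AlgebraicClosure k) (φ (MvPolynomial.C z)) = _
        rw [hφ]
        unfold evp
        rw [MvPolynomial.eval₂Hom_C]
        rfl
      rw [h4]
      exact h1 c hc1
    have hx0 : x ≠ 0 := by
      rintro rfl
      exact hx isAlgebraic_zero
    by_cases h1 : (algebraMap K₀ K₁ x)⁻¹ ∈ P₁.ring.nonunits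
    · obtain ⟨P₀, h2, h3⟩ := exists_trace5 (k₀ := k₀) P₁ (z := x⁻¹) (inv_ne_zero hx0) (by rw [map_inv₀]; exact h1)
      have h4 : P₀ ∈ hOO.toFinset := by
        rw [Set.Finite.mem_toFinset]
        exact Or.inl ((h3 x⁻¹).2 (by rw [map_inv₀]; exact h1))
      obtain ⟨θ, π, q, p, hp, h5⟩ := hover P₀ h4 h2
      exact ⟨θ, π, q, p, hp, fun _ => h5⟩
    · have hxP : algebraMap K₀ K₁ x ∈ P₁.ring := by
        by_contra h2
        exact h1 ((ValuationSubring.mem_nonunits_iff_or _).2 (Or.inr (by rwa [inv_inv])))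
      by_cases h2 : aeval (algebraMap K₀ K₁ x) (f₀.map (algebraMap k₀ k)) ∈ P₁.ring.nonunits
      · have h3 : algebraMap K₀ K₁ (aeval x (f₀ * X)) ∈ P₁.ring.nonunits := by
          have h4 : algebraMap K₀ K₁ (aeval x f₀) = aeval (algebraMap K₀ K₁ x) (f₀.map (algebraMap k₀ k)) := by
            rw [aeval_map_algebraMap, aeval_algebraMap_apply]
          rw [map_mul, map_mul, aeval_X, h4]
          exact nonunit_mul h2 hxP
        obtain ⟨P₀, h4, h5⟩ := exists_trace5 (k₀ := k₀) P₁ (z := aeval x (f₀ * X))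
          (fun h => htf (by rw [h]; exact isAlgebraic_zero)) h3
        have h6 : P₀ ∈ hOO.toFinset := by
          rw [Set.Finite.mem_toFinset]
          exact Or.inr ((h5 _).2 h3)
        obtain ⟨θ, π, q, p, hp, h7⟩ := hover P₀ h6 h4
        exact ⟨θ, π, q, p, hp, fun _ => h7⟩
      · by_cases h3 : aeval (algebraMap K₀ K₁ x) (ff₁.map φ) ∈ P₁.ring.nonunits
        · obtain ⟨θ, π, q, p, hp, h4, h5, h6⟩ := hplaces W (fun h hh => hW.mem h (hE1 h hh))
            (fun h hh => hW.unit h (hU1 h hh)) P₁ hxP h2 h3 e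
          refine ⟨θ, π, q, p, hp, fun _ => ⟨h5, h6, fun c hc1 => ?_⟩⟩
          exact hroots c fR ((dvd_mul_left fR ff₁).mul_right _) (h4 c hc1)
        · obtain ⟨θ, π, q, p, hp⟩ := exists_pdata hc.ff P₁ hc.g_ne
          exact ⟨θ, π, q, p, hp, fun h4 => (h4.elim h1 h3).elim⟩
  choose θf πf qf pf hd hbad using hdat
  have hunit : ∀ {z : k}, W.valuation (algebraMap k (AlgebraicClosure k) z) = 1 →
      algebraMap k (AlgebraicClosure k) z⁻¹ ∈ W := by
    intro z hz
    rw [map_inv₀]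
    exact (unit_of5 hz).2.2.1
  have hcast : ∀ (P₁ : Place k K₁) (c : AlgebraicClosure k),
      eval₂ ((algebraMap k (AlgebraicClosure k)).comp (algebraMap k k)) c (qf P₁) = 0 → aeval c (qf P₁) = 0 := by
    intro P₁ c h1
    rw [Algebra.algebraMap_self, RingHom.comp_id, ← aeval_def] at h1
    exact h1
  refine deg_place (k₀ := k) (K₀ := K₁) (C := AlgebraicClosure k) hc hd hF hfin hc.ff ?_ hc.x_tr hv0 hW.const ?_ ?_
    hW.v_mem hW.gen ?_ ?_
  · rw [eq_top_iff]
    intro z _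
    exact IntermediateField.subset_adjoin _ _ ⟨z, rfl⟩
  · intro z hz
    change algebraMap k (AlgebraicClosure k) z ∈ W
    rcases Finset.mem_union.1 hz with h1 | h1
    · unfold goodElts at h1
      rcases Finset.mem_union.1 h1 with h2 | h2
      · obtain ⟨i, -, rfl⟩ := Finset.mem_image.1 h2
        rw [coeff_map]
        exact hW.mem _ (hE1 _ (hcoef1 i))
      · simp only [Finset.mem_insert, Finset.mem_singleton] at h2
        rcases h2 with rfl | rfl | rfl | rfl
        · rw [leadingCoeff_map_of_leadingCoeff_ne_zero φ hlcff₁]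
          exact hunit (hW.unit _ (hU1 _ hlc1))
        · rw [discr_map_of_lc φ ff₁ (by omega) hlcff₁]
          exact hunit (hW.unit _ (hU1 _ hdisc1))
        · rw [map_one]
          exact W.one_mem
        · rw [inv_one, map_one]
          exact W.one_mem
    · rcases Finset.mem_union.1 h1 with h2 | h2
      · obtain ⟨h, hh, rfl⟩ := Finset.mem_image.1 h2
        exact hW.mem h (hE1 h hh)
      · obtain ⟨h, hh, rfl⟩ := Finset.mem_image.1 h2
        exact hunit (hW.unit h (hU1 h hh))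
  · intro P₁ hP₁
    exact ⟨(hbad P₁ hP₁).1, (hbad P₁ hP₁).2.1⟩
  · intro P₁ hP₁ c hc1 σ hσ
    have h1 := (hbad P₁ hP₁).2.2 c (hcast P₁ c hc1)
    have h2 : aeval (σ c) (ff.map φ) = 0 := by
      have h3 := aeval_algHom_apply (σ : AlgebraicClosure k →ₐ[k] AlgebraicClosure k) c (ff.map φ)
      rw [h1, map_zero] at h3
      exact h3
    by_contra hne'
    have h3 := hred.root_diff h2 h1 hne'
    exact (unit_of5 h3).2.1 (hσ.2 c (hred.root_mem h1))
  · intro P₁ hP₁ c hc1 σ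
    exact full_orbit5 hW.move ((hbad P₁ hP₁).2.2 c (hcast P₁ c hc1)) σ

end Pool.Agent.SE
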