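import Pool.Agent.Helper10.SE.Defs7
import Pool.Agent.Helper10.SE.M2
import Pool.Agent.Helper37.TWH.A1

/-!
# Project SE, block CHART, part 1: plane models over a domain
-/

universe u

set_option linter.unusedSectionVars false

namespace Pool.Agent.SE

open Polynomial Pool.Agent.TWH

section chart

variable {R L : Type u} (κ : Type u) [CommRing R] [IsDomain R] [UniqueFactorizationMonoid R]
  [Field κ] [Algebra R κ] [IsFractionRing R κ] [Field L] [Algebra κ L]

/-- The value of a polynomial over `R` in two variables at the point `(x, z)`. -/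
noncomputable def evr (x z : L) : R[X][X] →+* L :=
  (ev2 x z).comp (mapRingHom (mapRingHom (algebraMap R κ)))

/-- The value of a polynomial over `R` in one variable at the point `x`. -/
noncomputable def evr1 (x : L) : R[X] →+* L :=
  (aeval x : κ[X] →ₐ[κ] L).toRingHom.comp (mapRingHom (algebraMap R κ))

theorem evr1_apply (x : L) (p : R[X]) : evr1 κ x p = aeval x (p.map (algebraMap R κ)) := rfl

theorem evr_eq (x z : L) (p : R[X][X]) : evr κ x z p = (p.map (evr1 κ x)).eval z := by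
  unfold evr ev2
  rw [RingHom.comp_apply, coe_eval₂RingHom, coe_mapRingHom, eval₂_map, eval_map]
  rfl

theorem evr_C (x z : L) (p : R[X]) : evr κ x z (C p) = evr1 κ x p := by
  rw [evr_eq, map_C, eval_C]

theorem evr_X (x z : L) : evr κ x z (X : R[X][X]) = z := by
  rw [evr_eq, map_X, eval_X]

theorem evr1_C (x : L) (r : R) : evr1 κ x (C r) = algebraMap κ L (algebraMap R κ r) := by
  rw [evr1_apply, map_C, aeval_C]

theorem evr1_X (x : L) : evr1 κ x (X : R[X]) = x := by
  rw [evr1_apply, map_X, aeval_X]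

theorem evr1_ne {x : L} (hx : Transcendental κ x) {p : R[X]} (hp : p ≠ 0) : evr1 κ x p ≠ 0 := by
  intro h0
  have h1 := (transcendental_iff.1 hx) _ h0
  exact (Polynomial.map_ne_zero_iff (IsFractionRing.injective R κ)).2 hp h1

theorem evr1_injective {x : L} (hx : Transcendental κ x) :
    Function.Injective (evr1 κ x : R[X] →+* L) := by
  rw [injective_iff_map_eq_zero]
  intro p hp
  by_contra h0
  exact evr1_ne κ hx h0 hp

/-- **The plane model** over the domain `R`. -/
theorem exists_modelM {x z : L} (hx : Transcendental κ x) {Φ : κ[X][X]} (hΦ : Φ.Monic)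
    (hirr : Irreducible Φ) (h0 : ev2 x z Φ = 0) :
    ∃ (M : R[X][X]) (d : R), d ≠ 0 ∧ Irreducible M ∧ 0 < M.natDegree ∧ M.natDegree = Φ.natDegree ∧
      M.leadingCoeff = C d ∧
      M.map (mapRingHom (algebraMap R κ)) = C (C (algebraMap R κ d)) * Φ := by
  classical
  have hinj : Function.Injective (algebraMap R κ) := IsFractionRing.injective R κ
  have hinj2 : Function.Injective (mapRingHom (algebraMap R κ)) := Polynomial.map_injective _ hinj
  have hinj3 : Function.Injective (mapRingHom (mapRingHom (algebraMap R κ))) :=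
    Polynomial.map_injective _ hinj2
  obtain ⟨b, Φ₁, hb, hΦ₁⟩ := clear2 (A := R) Φ
  have hb' : algebraMap R κ b ≠ 0 := (map_ne_zero_iff _ hinj).2 hb
  have hcu : ∀ c : κ, c ≠ 0 → IsUnit (C (C c) : κ[X][X]) := fun c hc =>
    isUnit_C.2 (isUnit_C.2 (isUnit_iff_ne_zero.2 hc))
  have hΦ₁0 : Φ₁ ≠ 0 := by
    rintro rfl
    rw [Polynomial.map_zero] at hΦ₁
    exact mul_ne_zero (hcu _ hb').ne_zero hirr.ne_zero hΦ₁.symm
  have hev : evr κ x z Φ₁ = 0 := by
    change ev2 x z (Φ₁.map (mapRingHom (algebraMap R κ))) = 0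
    rw [hΦ₁, map_mul, h0, mul_zero]
  -- an irreducible factor which vanishes at `(x, z)`
  obtain ⟨M, hM, hMd, hM0⟩ : ∃ M : R[X][X], Irreducible M ∧ M ∣ Φ₁ ∧ evr κ x z M = 0 := by
    have hfac : ∀ p : R[X][X], p ≠ 0 → evr κ x z p = 0 →
        ∃ M : R[X][X], Irreducible M ∧ M ∣ p ∧ evr κ x z M = 0 := by
      intro p
      induction p using UniqueFactorizationMonoid.induction_on_prime with
      | h₁ => intro h; exact absurd rfl h
      | h₂ p hp => intro _ h; exact absurd h (hp.map (evr κ x z)).ne_zero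
      | h₃ a p ha0 hp ih =>
        intro _ h
        rw [map_mul] at h
        rcases mul_eq_zero.1 h with h1 | h1
        · exact ⟨p, hp.irreducible, Dvd.intro _ rfl, h1⟩
        · obtain ⟨M, hM, hMa, hM0⟩ := ih ha0 h1
          exact ⟨M, hM, hMa.mul_left _, hM0⟩
    exact hfac Φ₁ hΦ₁0 hev
  obtain ⟨H, hH⟩ := hMd
  have h1 : M.map (mapRingHom (algebraMap R κ)) * H.map (mapRingHom (algebraMap R κ)) =
      C (C (algebraMap R κ b)) * Φ := by
    rw [← Polynomial.map_mul, ← hH, hΦ₁]
  have hirr2 : Irreducible (C (C (algebraMap R κ b)) * Φ) := by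
    obtain ⟨w, hw⟩ := hcu _ hb'
    rw [← hw]
    exact (irreducible_units_mul w).2 hirr
  have hMnu : ¬ IsUnit (M.map (mapRingHom (algebraMap R κ))) := by
    intro hu
    have h2 := (hu.map (ev2 x z)).ne_zero
    exact h2 hM0
  have hHu : IsUnit (H.map (mapRingHom (algebraMap R κ))) := by
    rcases hirr2.isUnit_or_isUnit h1.symm with h2 | h2
    · exact absurd h2 hMnu
    · exact h2
  obtain ⟨c₁, hc₁u, hc₁⟩ := Polynomial.isUnit_iff.1 hHu
  obtain ⟨c, hcu', hc⟩ := Polynomial.isUnit_iff.1 hc₁u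
  have hc0 : c ≠ 0 := hcu'.ne_zero
  -- the leading coefficient
  have h3 : M.map (mapRingHom (algebraMap R κ)) = C (C (algebraMap R κ b * c⁻¹)) * Φ := by
    rw [← hc₁, ← hc] at h1
    have h4 : (C (C c) : κ[X][X]) * C (C c⁻¹) = 1 := by
      rw [← C_mul, ← C_mul, mul_inv_cancel₀ hc0, C_1, C_1]
    calc M.map (mapRingHom (algebraMap R κ)) =
        M.map (mapRingHom (algebraMap R κ)) * C (C c) * C (C c⁻¹) := by rw [mul_assoc, h4, mul_one]
      _ = C (C (algebraMap R κ b * c⁻¹)) * Φ := by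
        rw [h1, C_mul, C_mul]
        ring
  have hbc : algebraMap R κ b * c⁻¹ ≠ 0 := mul_ne_zero hb' (inv_ne_zero hc0)
  have hdeg : M.natDegree = Φ.natDegree := by
    have h4 := congrArg natDegree h3
    rw [natDegree_map_eq_of_injective hinj2, natDegree_C_mul (C_ne_zero.2 hbc)] at h4
    exact h4
  have hΦd : 0 < Φ.natDegree := by
    by_contra h4
    have h5 : Φ = 1 := hΦ.natDegree_eq_zero.1 (by omega)
    exact hirr.not_isUnit (h5 ▸ isUnit_one)
  have hlead : mapRingHom (algebraMap R κ) M.leadingCoeff = C (algebraMap R κ b * c⁻¹) := by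
    have h4 : (M.map (mapRingHom (algebraMap R κ))).leadingCoeff =
        mapRingHom (algebraMap R κ) M.leadingCoeff := leadingCoeff_map_of_injective hinj2 M
    rw [← h4, h3, leadingCoeff_mul, leadingCoeff_C, hΦ.leadingCoeff, mul_one]
  have hld : M.leadingCoeff.natDegree = 0 := by
    have h4 := congrArg natDegree hlead
    rwa [coe_mapRingHom, natDegree_map_eq_of_injective hinj, natDegree_C] at h4
  obtain ⟨d, hd⟩ := natDegree_eq_zero.1 hld
  have hd' : algebraMap R κ d = algebraMap R κ b * c⁻¹ := by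
    rw [← hd, coe_mapRingHom, map_C] at hlead
    exact C_injective hlead
  refine ⟨M, d, ?_, hM, by omega, hdeg, hd.symm, by rw [h3, hd']⟩
  rintro rfl
  rw [map_zero] at hd'
  exact hbc hd'.symm

/-- the kernel of the evaluation -/
theorem evr_eq_zero_iff {x z : L} (hx : Transcendental κ x) {M : R[X][X]} (hM : Irreducible M)
    (hM0 : 0 < M.natDegree) (h0 : evr κ x z M = 0) (G : R[X][X]) : evr κ x z G = 0 ↔ M ∣ G := by
  constructor
  · intro hG
    by_contra hMG
    obtain ⟨A, B, n, hn, hAB⟩ := exists_bezout hM hM0 hMG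
    have h1 := congrArg (evr κ x z) hAB
    rw [map_add, map_mul, map_mul, h0, hG, mul_zero, mul_zero, add_zero, evr_C] at h1
    exact evr1_ne κ hx hn h1.symm
  · rintro ⟨H, rfl⟩
    rw [map_mul, h0, zero_mul]

theorem exists_invM {x z : L} (hx : Transcendental κ x) {M : R[X][X]} (hM : Irreducible M)
    (hM0 : 0 < M.natDegree) (h0 : evr κ x z M = 0) {G : R[X][X]} (hG : evr κ x z G ≠ 0) :
    ∃ (G' G'' : R[X][X]) (n : R[X]), n ≠ 0 ∧ G * G' + M * G'' = C n := by
  have h1 : ¬ M ∣ G := fun h => hG ((evr_eq_zero_iff κ hx hM hM0 h0 G).2 h)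
  obtain ⟨A, B, n, hn, hAB⟩ := exists_bezout hM hM0 h1
  exact ⟨B, A, n, hn, by rw [← hAB]; ring⟩

/-- **Fractions**: each element of `L = κ(x, z)` is a quotient `G(x, z) / D(x)`. -/
theorem exists_fracM {x z : L} (hx : Transcendental κ x) {M : R[X][X]} (hM : Irreducible M)
    (hM0 : 0 < M.natDegree) (h0 : evr κ x z M = 0) (hgen : IntermediateField.adjoin κ {x, z} = ⊤)
    (y : L) : ∃ (G : R[X][X]) (D : R[X]), D ≠ 0 ∧ y * evr1 κ x D = evr κ x z G := by
  have hy : y ∈ IntermediateField.adjoin κ {x, z} := by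
    rw [hgen]
    exact IntermediateField.mem_top
  induction hy using IntermediateField.adjoin_induction with
  | mem y hy =>
    rcases hy with rfl | hy
    · exact ⟨C X, 1, one_ne_zero, by rw [map_one, mul_one, evr_C, evr1_X]⟩
    · rw [Set.mem_singleton_iff] at hy
      subst hy
      exact ⟨X, 1, one_ne_zero, by rw [map_one, mul_one, evr_X]⟩
  | algebraMap c =>
    obtain ⟨b, hb, h1⟩ : ∃ b : R, b ≠ 0 ∧ ∃ a : R, algebraMap R κ b * c = algebraMap R κ a := by
      obtain ⟨⟨a, s⟩, has⟩ := IsLocalization.surj (nonZeroDivisors R) c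
      exact ⟨s, nonZeroDivisors.ne_zero s.2, a, by rw [mul_comm]; exact has⟩
    obtain ⟨a, ha⟩ := h1
    refine ⟨C (C a), C b, C_ne_zero.2 hb, ?_⟩
    rw [evr_C, evr1_C, evr1_C, ← map_mul, mul_comm, ha]
  | add y₁ y₂ _ _ h₁ h₂ =>
    obtain ⟨G₁, D₁, hD₁, e₁⟩ := h₁
    obtain ⟨G₂, D₂, hD₂, e₂⟩ := h₂
    refine ⟨G₁ * C D₂ + G₂ * C D₁, D₁ * D₂, mul_ne_zero hD₁ hD₂, ?_⟩
    rw [map_add, map_mul, map_mul, map_mul, evr_C, evr_C, ← e₁, ← e₂]
    ring
  | inv y _ h₁ =>
    obtain ⟨G₁, D₁, hD₁, e₁⟩ := h₁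
    by_cases hy0 : y = 0
    · exact ⟨0, 1, one_ne_zero, by rw [hy0, inv_zero, zero_mul, map_zero]⟩
    have hG₁ : evr κ x z G₁ ≠ 0 := by
      rw [← e₁]
      exact mul_ne_zero hy0 (evr1_ne κ hx hD₁)
    obtain ⟨G', G'', n, hn, hG'⟩ := exists_invM κ hx hM hM0 h0 hG₁
    refine ⟨C D₁ * G', n, hn, ?_⟩
    have h2 := congrArg (evr κ x z) hG'
    rw [map_add, map_mul, map_mul, h0, zero_mul, add_zero, evr_C, ← e₁] at h2
    rw [← h2, map_mul, evr_C]
    field_simp
  | mul y₁ y₂ _ _ h₁ h₂ =>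
    obtain ⟨G₁, D₁, hD₁, e₁⟩ := h₁
    obtain ⟨G₂, D₂, hD₂, e₂⟩ := h₂
    refine ⟨G₁ * G₂, D₁ * D₂, mul_ne_zero hD₁ hD₂, ?_⟩
    rw [map_mul, map_mul, ← e₁, ← e₂]
    ring

/-- **Relations**: each element `y ≠ 0` of `L` satisfies an algebraic equation over `R[x]` with a constant
coefficient which is not zero. -/
theorem exists_relM {x z : L} (hx : Transcendental κ x) {M : R[X][X]} (hM : Irreducible M)
    (hM0 : 0 < M.natDegree) (h0 : evr κ x z M = 0) (hgen : IntermediateField.adjoin κ {x, z} = ⊤)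
    {y : L} (hy : y ≠ 0) : ∃ P : R[X][X], P.coeff 0 ≠ 0 ∧ evr κ x y P = 0 := by
  classical
  let iA : Algebra R[X] L := (evr1 κ x : R[X] →+* L).toAlgebra
  have hinj : Function.Injective (algebraMap R[X] L) := evr1_injective κ hx
  have haev : ∀ (w : L) (P : R[X][X]), aeval w P = evr κ x w P := by
    intro w P
    rw [evr_eq, eval_map, aeval_def]
    rfl
  have key : ∀ w : L, IsAlgebraic R[X] w := by
    intro w
    have hw : w ∈ IntermediateField.adjoin κ {x, z} := by
      rw [hgen]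
      exact IntermediateField.mem_top
    induction hw using IntermediateField.adjoin_induction with
    | mem w hw =>
      rcases hw with rfl | hw
      · have h1 : w = algebraMap R[X] L X := (evr1_X κ w).symm
        have h2 : IsAlgebraic R[X] (algebraMap R[X] L X) := isAlgebraic_algebraMap _
        rwa [← h1] at h2
      · rw [Set.mem_singleton_iff] at hw
        subst hw
        exact ⟨M, hM.ne_zero, by rw [haev]; exact h0⟩
    | algebraMap c =>
      obtain ⟨⟨a, s⟩, has⟩ := IsLocalization.surj (nonZeroDivisors R) c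
      have hs : (s : R) ≠ 0 := nonZeroDivisors.ne_zero s.2
      refine ⟨C (C (s : R)) * X - C (C a), ?_, ?_⟩
      · intro h1
        have h2 := congrArg (fun p : R[X][X] => p.coeff 1) h1
        simp only [coeff_sub, coeff_C_mul, coeff_X_one, mul_one, coeff_zero] at h2
        rw [coeff_C_of_ne_zero one_ne_zero, sub_zero] at h2
        exact C_ne_zero.2 hs h2
      · rw [haev, map_sub, map_mul, evr_C, evr_C, evr_X, evr1_C, evr1_C, ← map_mul, sub_eq_zero]
        congr 1
        rw [mul_comm]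
        exact has
    | add _ _ _ _ h₁ h₂ => exact h₁.add h₂
    | inv _ _ h₁ => exact h₁.inv
    | mul _ _ _ _ h₁ h₂ => exact h₁.mul h₂
  obtain ⟨P, hP, hP0⟩ := key y
  rw [haev] at hP0
  obtain ⟨Q, hQ⟩ : X ^ P.natTrailingDegree ∣ P :=
    X_pow_dvd_iff.2 fun i hi => coeff_eq_zero_of_lt_natTrailingDegree hi
  have hQ0 : Q.coeff 0 ≠ 0 := by
    intro h1
    have h2 : P.coeff P.natTrailingDegree = 0 := by
      conv_lhs => rw [hQ]
      have h3 := coeff_X_pow_mul Q P.natTrailingDegree 0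
      rw [zero_add] at h3
      rw [← hQ, hQ]
      rw [← hQ] at h3 ⊢
      rw [h3, h1]
    exact trailingCoeff_nonzero_iff_nonzero.2 hP h2
  refine ⟨Q, hQ0, ?_⟩
  rw [hQ, map_mul, map_pow, evr_X] at hP0
  exact (mul_eq_zero.1 hP0).resolve_left (pow_ne_zero _ hy)

end chart

end Pool.Agent.SE
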