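import Pool.Agent.Helper5.SE.Ch1
import Pool.Agent.Helper10.SE.M4

/-!
# Project SE, block CHART, part 2: specialisations
-/

universe u

set_option linter.unusedSectionVars false

namespace Pool.Agent.SE

open VC Polynomial Pool.Agent.LT Pool.Agent.SC Pool.Agent.GC Pool.Agent.Helper91.Sect Pool.Agent
  Pool.Agent.TWX Pool.Agent.TWT Pool.Agent.TWH Pool.Agent.TWU

section val

variable {Ω : Type u} [Field Ω]

/-- a root of a polynomial with integral coefficients, whose leading and constant coefficients are units, is a unit -/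
theorem val_root_unit (W : ValuationSubring Ω) {p : Polynomial Ω} (hp : ∀ i, p.coeff i ∈ W)
    (hl : W.valuation p.leadingCoeff = 1) (h0 : W.valuation (p.coeff 0) = 1) {z : Ω}
    (hz : p.eval z = 0) : W.valuation z = 1 := by
  have hzW := mem_vs_of_root W hp hl hz
  have h1 : p.divX.eval z ∈ W := eval_mem_vs W (fun i => by rw [coeff_divX]; exact hp _) hzW
  have h2 : p.coeff 0 = -(p.divX.eval z * z) := by
    have h3 := congrArg (eval z) (divX_mul_X_add p)
    rw [eval_add, eval_mul, eval_X, eval_C, hz] at h3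
    linear_combination h3
  rw [h2, Valuation.map_neg, map_mul] at h0
  have h3 := (W.valuation_le_one_iff z).2 hzW
  have h4 := (W.valuation_le_one_iff _).2 h1
  have h5 : W.valuation (p.divX.eval z) * W.valuation z ≤ W.valuation z := mul_le_of_le_one_left' h4
  rw [h0] at h5
  exact le_antisymm h3 h5

end val

section spec

variable {k₀ k K₁ L : Type u} [Field k₀] [Field k] [Field K₁] [Algebra k K₁] [Field L] {N : ℕ}
  [Algebra (PF k₀ N) L] {ι : k₀ →+* k} {a : Fin N → k} {B : Subring L} {sp : B →+* K₁}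

theorem Spec.evr (h : Spec ι a B sp) (u v : B) (p : (MvPolynomial (Fin N) k₀)[X][X]) :
    ∃ hm : evr (PF k₀ N) (u : L) (v : L) p ∈ B, sp ⟨_, hm⟩ = ev3 ι a (sp u) (sp v) p := by
  let c : MvPolynomial (Fin N) k₀ →+* B :=
    ((algebraMap (PF k₀ N) L).comp (algebraMap (MvPolynomial (Fin N) k₀) (PF k₀ N))).codRestrict B h.mem
  let e : (MvPolynomial (Fin N) k₀)[X][X] →+* B := eval₂RingHom (eval₂RingHom c u) v
  have e1 : ∀ p, ((e p : B) : L) = SE.evr (PF k₀ N) (u : L) (v : L) p := by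
    intro p
    have h1 : B.subtype.comp e = SE.evr (PF k₀ N) (u : L) (v : L) := by
      apply Polynomial.ringHom_ext'
      · apply Polynomial.ringHom_ext
        · intro r
          change ((e (C (C r)) : B) : L) = SE.evr (PF k₀ N) (u : L) (v : L) (C (C r))
          rw [evr_C, evr1_C]
          change ((eval₂ (eval₂RingHom c u) v (C (C r)) : B) : L) = _
          rw [eval₂_C, coe_eval₂RingHom, eval₂_C]
          rfl
        · change ((e (C X) : B) : L) = SE.evr (PF k₀ N) (u : L) (v : L) (C X)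
          rw [evr_C, evr1_X]
          change ((eval₂ (eval₂RingHom c u) v (C X) : B) : L) = _
          rw [eval₂_C, coe_eval₂RingHom, eval₂_X]
      · change ((e X : B) : L) = SE.evr (PF k₀ N) (u : L) (v : L) X
        rw [evr_X]
        change ((eval₂ (eval₂RingHom c u) v X : B) : L) = _
        rw [eval₂_X]
    exact congrArg (fun f : (MvPolynomial (Fin N) k₀)[X][X] →+* L => f p) h1
  have e2 : ∀ p, sp (e p) = ev3 ι a (sp u) (sp v) p := by
    intro p
    have h1 : sp.comp e = ev3 ι a (sp u) (sp v) := by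
      apply Polynomial.ringHom_ext'
      · apply Polynomial.ringHom_ext
        · intro r
          change sp (e (C (C r))) = ev3 ι a (sp u) (sp v) (C (C r))
          rw [ev3_C, map_C, aeval_C, ← h.map r]
          congr 1
          change (eval₂ (eval₂RingHom c u) v (C (C r)) : B) = _
          rw [eval₂_C, coe_eval₂RingHom, eval₂_C]
          rfl
        · change sp (e (C X)) = ev3 ι a (sp u) (sp v) (C X)
          rw [ev3_C, map_X, aeval_X]
          change sp (eval₂ (eval₂RingHom c u) v (C X)) = _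
          rw [eval₂_C, coe_eval₂RingHom, eval₂_X]
      · change sp (e X) = ev3 ι a (sp u) (sp v) X
        rw [ev3_X]
        change sp (eval₂ (eval₂RingHom c u) v X) = _
        rw [eval₂_X]
    exact congrArg (fun f : (MvPolynomial (Fin N) k₀)[X][X] →+* K₁ => f p) h1
  have hm : SE.evr (PF k₀ N) (u : L) (v : L) p ∈ B := by
    rw [← e1]
    exact (e p).2
  refine ⟨hm, ?_⟩
  rw [← e2]
  congr 1
  exact Subtype.ext (e1 p).symm

/-- the same with elements of `L` which lie in `B` -/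
theorem Spec.evr' (h : Spec ι a B sp) {u v : L} (hu : u ∈ B) (hv : v ∈ B)
    (p : (MvPolynomial (Fin N) k₀)[X][X]) :
    ∃ hm : SE.evr (PF k₀ N) u v p ∈ B, sp ⟨_, hm⟩ = ev3 ι a (sp ⟨u, hu⟩) (sp ⟨v, hv⟩) p :=
  h.evr ⟨u, hu⟩ ⟨v, hv⟩ p

/-- the version for polynomials in one variable -/
theorem Spec.evr1 (h : Spec ι a B sp) {u : L} (hu : u ∈ B)
    (p : (MvPolynomial (Fin N) k₀)[X]) :
    ∃ hm : SE.evr1 (PF k₀ N) u p ∈ B, sp ⟨_, hm⟩ = aeval (sp ⟨u, hu⟩) (p.map (evp ι a)) := by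
  obtain ⟨hm, h1⟩ := h.evr' hu hu (C p)
  rw [ev3_C] at h1
  have h2 : SE.evr (PF k₀ N) u u (C p) = SE.evr1 (PF k₀ N) u p := evr_C _ _ _ _
  refine ⟨by rw [← h2]; exact hm, ?_⟩
  rw [← h1]
  congr 1
  exact Subtype.ext h2.symm

theorem sp_ne_zero {t : L} (ht : t ∈ B) (ht' : t⁻¹ ∈ B) (h0 : t ≠ 0) : sp ⟨t, ht⟩ ≠ 0 := by
  have h1 : (⟨t, ht⟩ : B) * ⟨t⁻¹, ht'⟩ = 1 := Subtype.ext (mul_inv_cancel₀ h0)
  have h2 := congrArg sp h1
  rw [map_mul, map_one] at h2
  exact left_ne_zero_of_mul (h2 ▸ one_ne_zero)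

theorem sp_inv {t : L} (ht : t ∈ B) (ht' : t⁻¹ ∈ B) (h0 : t ≠ 0) :
    sp ⟨t⁻¹, ht'⟩ = (sp ⟨t, ht⟩)⁻¹ := by
  have h1 : (⟨t, ht⟩ : B) * ⟨t⁻¹, ht'⟩ = 1 := Subtype.ext (mul_inv_cancel₀ h0)
  have h2 := congrArg sp h1
  rw [map_mul, map_one] at h2
  exact eq_inv_of_mul_eq_one_right h2

end spec

section place

variable {k₀ k K₁ : Type u} [Field k₀] [Field k] [Field K₁] [Algebra k K₁] {N : ℕ} (ι : k₀ →+* k)
  (a : Fin N → k)

theorem ev3_eval₂ (x z : K₁) (t : (MvPolynomial (Fin N) k₀)[X][X]) (χ : (MvPolynomial (Fin N) k₀)[X]) :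
    ev3 ι a x z (eval₂ (C.comp C) t χ) = aeval (ev3 ι a x z t) (χ.map (evp ι a)) := by
  rw [hom_eval₂, aeval_def, eval₂_map]
  have h1 : (ev3 ι a x z).comp (C.comp C) = (algebraMap k K₁).comp (evp ι a) := by
    refine RingHom.ext fun r => ?_
    change ev3 ι a x z (C (C r)) = algebraMap k K₁ (evp ι a r)
    rw [ev3_C, map_C, aeval_C]
  rw [h1]

theorem aeval_mem_place (P₁ : Place k K₁) {ξ : K₁} (hξ : ξ ∈ P₁.ring) (p : k[X]) :
    aeval ξ p ∈ P₁.ring := by
  rw [aeval_eq_sum_range]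
  refine P₁.ring.toSubring.sum_mem fun i _ => ?_
  rw [Algebra.smul_def]
  exact P₁.ring.mul_mem _ _ (P₁.algebraMap_mem _) (P₁.ring.toSubring.pow_mem hξ i)

theorem ev3_mem_place (P₁ : Place k K₁) {ξ ζ : K₁} (hξ : ξ ∈ P₁.ring) (hζ : ζ ∈ P₁.ring)
    (p : (MvPolynomial (Fin N) k₀)[X][X]) : ev3 ι a ξ ζ p ∈ P₁.ring := by
  rw [ev3_eq]
  refine eval_mem_vs P₁.ring (fun i => ?_) hζ
  rw [coeff_map, ev3x_apply]
  exact aeval_mem_place P₁ hξ _

/-- the constant coefficient of a relation for a function in the maximal ideal -/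
theorem nonunit_of_rel (P₁ : Place k K₁) {ξ y : K₁} (hξ : ξ ∈ P₁.ring) (hy : y ∈ P₁.ring.nonunits)
    {p : (MvPolynomial (Fin N) k₀)[X][X]} (h : ev3 ι a ξ y p = 0) :
    aeval ξ ((p.coeff 0).map (evp ι a)) ∈ P₁.ring.nonunits := by
  have h1 := congrArg (ev3 ι a ξ y) (divX_mul_X_add p)
  rw [map_add, map_mul, ev3_X, ev3_C, h] at h1
  have h2 : aeval ξ ((p.coeff 0).map (evp ι a)) = (-(ev3 ι a ξ y p.divX)) * y := by
    linear_combination h1
  have h3 : -(ev3 ι a ξ y p.divX) ∈ P₁.ring :=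
    P₁.ring.neg_mem _ (ev3_mem_place ι a P₁ hξ (ValuationSubring.nonunits_le hy) _)
  rw [h2, mul_comm]
  exact nonunit_mul hy h3

/-- a relation forces `ξ` to be transcendental -/
theorem transc_of_rel {ξ y : K₁} (hy : Transcendental k y)
    {p : (MvPolynomial (Fin N) k₀)[X][X]} (h : ev3 ι a ξ y p = 0)
    (h0 : aeval ξ ((p.coeff 0).map (evp ι a)) ≠ 0) : Transcendental k ξ := by
  intro hξ
  apply hy
  set A := algebraicClosure k K₁ with hA
  have hξA : ξ ∈ A := mem_algebraicClosure_iff.2 hξ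
  let ρ : (MvPolynomial (Fin N) k₀)[X] →+* A :=
    (aeval (⟨ξ, hξA⟩ : A) : k[X] →ₐ[k] A).toRingHom.comp (mapRingHom (evp ι a))
  have hρ : (algebraMap A K₁).comp ρ = ev3x ι a ξ := by
    apply Polynomial.ringHom_ext
    · intro c
      change algebraMap A K₁ (aeval (⟨ξ, hξA⟩ : A) ((C c).map (evp ι a))) = aeval ξ ((C c).map (evp ι a))
      rw [map_C, aeval_C, aeval_C]
      rfl
    · change algebraMap A K₁ (aeval (⟨ξ, hξA⟩ : A) (X.map (evp ι a))) = aeval ξ (X.map (evp ι a))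
      rw [map_X, aeval_X, aeval_X]
      rfl
  have h1 : IsAlgebraic A y := by
    refine ⟨p.map ρ, ?_, ?_⟩
    · intro h2
      have h3 : ρ (p.coeff 0) = 0 := by rw [← coeff_map, h2, coeff_zero]
      apply h0
      have h4 := congrArg (algebraMap A K₁) h3
      rw [map_zero] at h4
      have h5 : (algebraMap A K₁) (ρ (p.coeff 0)) = ev3x ι a ξ (p.coeff 0) :=
        congrArg (fun f : (MvPolynomial (Fin N) k₀)[X] →+* K₁ => f (p.coeff 0)) hρ
      rw [h5] at h4
      exact h4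
    · rw [aeval_def, eval₂_map, hρ, ← eval_map, ← ev3_eq]
      exact h
  exact h1.restrictScalars k

end place

end Pool.Agent.SE
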