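import Pool.Agent.Helper5.SE.Ch2
import Pool.Agent.Helper10.SE.R1

/-!
# Project SE, block CHART, part 3: the places of a member in a chart
-/

universe u

set_option linter.unusedSectionVars false
set_option maxHeartbeats 1000000

namespace Pool.Agent.SE

open VC Polynomial Pool.Agent.LT Pool.Agent.SC Pool.Agent.GC Pool.Agent.Helper91.Sect Pool.Agent
  Pool.Agent.TWX Pool.Agent.TWT Pool.Agent.TWH Pool.Agent.TWU

theorem chart_place (hcfvl : StmtCFVL.{u}) {k₀ k K₁ : Type u} [Field k₀] [Field k] [CharZero k]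
    [Field K₁] [Algebra k K₁] {N r : ℕ} (ι : k₀ →+* k) (a : Fin N → k) (hFF : IsFunctionField k K₁)
    {ξ ζ : K₁} (hξ : Transcendental k ξ) (hgen : IntermediateField.adjoin k {ξ, ζ} = ⊤)
    {M : (MvPolynomial (Fin N) k₀)[X][X]} {d : MvPolynomial (Fin N) k₀} (hlead : M.leadingCoeff = C d)
    (hM0 : ev3 ι a ξ ζ M = 0) (hd : evp ι a d ≠ 0)
    {f : (MvPolynomial (Fin N) k₀)[X]} (hfdeg : 1 ≤ f.natDegree) (hflc : evp ι a f.leadingCoeff ≠ 0)
    {G G' G'' : Fin r → (MvPolynomial (Fin N) k₀)[X][X]} {n : Fin r → (MvPolynomial (Fin N) k₀)[X]}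
    (hG : ∀ s, G s * G' s + M * G'' s = C (n s)) (hn : ∀ s, evp ι a (n s).leadingCoeff ≠ 0)
    (hnf : ∀ s (c : AlgebraicClosure k), aeval c ((n s).map (evp ι a)) = 0 →
      aeval c (f.map (evp ι a)) = 0)
    {χ : (MvPolynomial (Fin N) k₀)[X]} {μ : ℕ} {A B : (MvPolynomial (Fin N) k₀)[X][X]}
    (hχ : eval₂ (C.comp C) (derivative M) (X ^ μ * χ) = A * C f + B * M)
    {χl : ℕ → (MvPolynomial (Fin N) k₀)[X]} {Al Bl : ℕ → (MvPolynomial (Fin N) k₀)[X][X]}
    (hχl : ∀ l : ℕ, eval₂ (C.comp C) (C X + C (C (l : MvPolynomial (Fin N) k₀)) * X) (χl l) =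
      Al l * C f + Bl l * M)
    (P₁ : Place k K₁) (hξP : ξ ∈ P₁.ring) (hder : ev3 ι a ξ ζ (derivative M) ∉ P₁.ring.nonunits)
    (hfP : aeval ξ (f.map (evp ι a)) ∈ P₁.ring.nonunits) (e : Fin r → ℤ) :
    ∃ (θ π : K₁) (q p : k[X]), PData (∏ s, ev3 ι a ξ ζ (G s) ^ e s) P₁ θ π q p ∧
      (∀ c : AlgebraicClosure k, aeval c q = 0 →
        ∃ l ≤ (f.natDegree * M.natDegree) ^ 2, aeval c ((χl l).map (evp ι a)) = 0) ∧
      ∀ W : ValuationSubring (AlgebraicClosure k),
        (∀ i, algebraMap k (AlgebraicClosure k) (evp ι a (f.coeff i)) ∈ W) →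
        W.valuation (algebraMap k (AlgebraicClosure k) (evp ι a f.leadingCoeff)) = 1 →
        W.valuation (algebraMap k (AlgebraicClosure k) (evp ι a f.discr)) = 1 →
        (∀ s i, algebraMap k (AlgebraicClosure k) (evp ι a ((n s).coeff i)) ∈ W) →
        (∀ s, W.valuation (algebraMap k (AlgebraicClosure k) (evp ι a (n s).leadingCoeff)) = 1) →
        (∀ i j, algebraMap k (AlgebraicClosure k) (evp ι a ((M.coeff i).coeff j)) ∈ W) →
        W.valuation (algebraMap k (AlgebraicClosure k) (evp ι a d)) = 1 →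
        (∀ s i j, algebraMap k (AlgebraicClosure k) (evp ι a (((G s).coeff i).coeff j)) ∈ W) →
        (∀ s i j, algebraMap k (AlgebraicClosure k) (evp ι a (((G' s).coeff i).coeff j)) ∈ W) →
        (∀ s i j, algebraMap k (AlgebraicClosure k) (evp ι a (((G'' s).coeff i).coeff j)) ∈ W) →
        (∀ i, algebraMap k (AlgebraicClosure k) (evp ι a (χ.coeff i)) ∈ W) →
        W.valuation (algebraMap k (AlgebraicClosure k) (evp ι a χ.leadingCoeff)) = 1 →
        W.valuation (algebraMap k (AlgebraicClosure k) (evp ι a (χ.coeff 0))) = 1 →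
        (∀ i, algebraMap k (AlgebraicClosure k) (p.coeff i) ∈ W) ∧
          algebraMap k (AlgebraicClosure k) (p.coeff 0)⁻¹ ∈ W := by
  classical
  set φ := evp ι a with hφ
  set Ω := AlgebraicClosure k with hΩ
  -- the monic plane equation
  set Ma : k[X][X] := M.map (mapRingHom φ) with hMa
  have hMalead : Ma.leadingCoeff = C (φ d) := by
    have h1 : mapRingHom φ M.leadingCoeff ≠ 0 := by
      rw [hlead, coe_mapRingHom, map_C]
      exact C_ne_zero.2 hd
    rw [hMa, leadingCoeff_map_of_leadingCoeff_ne_zero _ h1, hlead, coe_mapRingHom, map_C]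
  have hMadeg : Ma.natDegree = M.natDegree := by
    have h1 : mapRingHom φ M.leadingCoeff ≠ 0 := by
      rw [hlead, coe_mapRingHom, map_C]
      exact C_ne_zero.2 hd
    rw [hMa, natDegree_map_of_leadingCoeff_ne_zero _ h1]
  set Φ : k[X][X] := C (C (φ d)⁻¹) * Ma with hΦ
  have hcc : (C (C (φ d)) : k[X][X]) * C (C (φ d)⁻¹) = 1 := by
    rw [← C_mul, ← C_mul, mul_inv_cancel₀ hd, C_1, C_1]
  have hMaΦ : Ma = C (C (φ d)) * Φ := by
    rw [hΦ, ← mul_assoc, hcc, one_mul]
  have hΦm : Φ.Monic := by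
    unfold Monic
    rw [hΦ, leadingCoeff_mul, leadingCoeff_C, hMalead, ← C_mul, inv_mul_cancel₀ hd, C_1]
  have hΦdeg : Φ.natDegree = M.natDegree := by
    rw [hΦ, natDegree_C_mul (C_ne_zero.2 (inv_ne_zero hd)), hMadeg]
  have hev : ∀ {K : Type u} [Field K] [Algebra k K] (x z : K) (p : (MvPolynomial (Fin N) k₀)[X][X]),
      ev3 ι a x z p = ev2 x z (p.map (mapRingHom φ)) := fun x z p => rfl
  have hev2C : ∀ {K : Type u} [Field K] [Algebra k K] (x z : K) (p : k[X]),
      ev2 x z (C p) = aeval x p := by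
    intro K _ _ x z p
    unfold ev2
    rw [coe_eval₂RingHom, eval₂_C]
    rfl
  have hevM : ∀ {K : Type u} [Field K] [Algebra k K] (x z : K),
      ev3 ι a x z M = algebraMap k K (φ d) * ev2 x z Φ := by
    intro K _ _ x z
    rw [hev, ← hMa, hMaΦ, map_mul, hev2C, aeval_C]
  have hdK : ∀ (K : Type u) [Field K] [Algebra k K], algebraMap k K (φ d) ≠ 0 := fun K _ _ =>
    (_root_.map_ne_zero _).2 hd
  have hΦ0 : ev2 ξ ζ Φ = 0 := by
    rw [hevM] at hM0
    exact (mul_eq_zero.1 hM0).resolve_left (hdK K₁)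
  have hderM : ev3 ι a ξ ζ (derivative M) = algebraMap k K₁ (φ d) * ev2 ξ ζ (derivative Φ) := by
    rw [hev, ← derivative_map, ← hMa, hMaΦ, derivative_C_mul, map_mul, hev2C, aeval_C]
  have hderΦ : ev2 ξ ζ (derivative Φ) ∉ P₁.ring.nonunits := by
    intro h1
    apply hder
    rw [hderM, mul_comm]
    exact nonunit_mul h1 (P₁.algebraMap_mem _)
  -- the other polynomials
  have hf0 : f.map φ ≠ 0 := by
    intro h0
    apply hflc
    have h1 : (f.map φ).coeff f.natDegree = 0 := by rw [h0, coeff_zero]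
    rw [coeff_map] at h1
    exact h1
  have hfdeg' : (f.map φ).natDegree = f.natDegree := natDegree_map_of_leadingCoeff_ne_zero φ hflc
  have hn0 : ∀ s, (n s).map φ ≠ 0 := by
    intro s h0
    apply hn s
    have h1 : ((n s).map φ).coeff (n s).natDegree = 0 := by rw [h0, coeff_zero]
    rw [coeff_map] at h1
    exact h1
  set Ga : Fin r → k[X][X] := fun s => (G s).map (mapRingHom φ) with hGa
  set Ga' : Fin r → k[X][X] := fun s => (G' s).map (mapRingHom φ) with hGa'
  set Ga'' : Fin r → k[X][X] := fun s => (C (C d) * G'' s).map (mapRingHom φ) with hGa''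
  have hrel : ∀ s, Ga s * Ga' s + Φ * Ga'' s = C ((n s).map φ) := by
    intro s
    have h1 := congrArg (fun p : (MvPolynomial (Fin N) k₀)[X][X] => p.map (mapRingHom φ)) (hG s)
    simp only [Polynomial.map_add, Polynomial.map_mul] at h1
    rw [map_C, coe_mapRingHom, ← hMa, hMaΦ] at h1
    rw [← h1, hGa'']
    simp only [Polynomial.map_mul, map_C, coe_mapRingHom]
    ring
  obtain ⟨l, π, q, p, hl, hPD, hq, hW⟩ := hcfvl hFF hξ hgen hΦm hΦ0 hf0 hrel hn0 hnf P₁ hξP hderΦ hfP e
  refine ⟨_, π, q, p, hPD, ?_, ?_⟩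
  · -- the roots
    intro c hc
    obtain ⟨ξ', ζ', h1, h2, h3⟩ := hq c hc
    refine ⟨l, by rw [hfdeg', hΦdeg] at hl; exact hl, ?_⟩
    have h5 : ev3 ι a ξ' ζ' (C X + C (C (l : MvPolynomial (Fin N) k₀)) * X) = ξ' + l * ζ' := by
      rw [map_add, map_mul, ev3_C, ev3_C, ev3_X, map_X, aeval_X, map_C, aeval_C, map_natCast,
        map_natCast]
    have h4 := congrArg (ev3 ι a ξ' ζ') (hχl l)
    rw [ev3_eval₂, h5, map_add, map_mul, map_mul, ev3_C, h1, mul_zero, hevM, h2, mul_zero, mul_zero,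
      add_zero] at h4
    rw [h3]
    exact h4
  · -- the valuation ring `W`
    intro W hWf hWflc hWfd hWn hWnlc hWM hWd hWG hWG' hWG'' hWχ hWχlc hWχ0
    have hle : ∀ {z : Ω}, z ∈ W ↔ W.valuation z ≤ 1 := fun {z} => (W.valuation_le_one_iff z).symm
    have hdinv : algebraMap k Ω (φ d)⁻¹ ∈ W := by
      rw [hle, map_inv₀, map_inv₀, hWd, inv_one]
    refine hW W (fun i => by rw [coeff_map]; exact hWf i) ?_ ?_ (fun s i => by rw [coeff_map]; exact hWn s i)
      ?_ ?_ (fun s i j => ?_) (fun s i j => ?_) (fun s i j => ?_) ?_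
    · rw [leadingCoeff_map_of_leadingCoeff_ne_zero φ hflc]
      exact hWflc
    · rw [discr_map_of_lc φ f (by omega) hflc]
      exact hWfd
    · intro s
      rw [leadingCoeff_map_of_leadingCoeff_ne_zero φ (hn s)]
      exact hWnlc s
    · intro i j
      rw [hΦ, coeff_C_mul, coeff_C_mul, hMa, coeff_map, coe_mapRingHom, coeff_map, map_mul]
      exact W.mul_mem _ _ hdinv (hWM i j)
    · rw [hGa]
      simp only [coeff_map, coe_mapRingHom]
      exact hWG s i j
    · rw [hGa']
      simp only [coeff_map, coe_mapRingHom]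
      exact hWG' s i j
    · rw [hGa'']
      simp only [coeff_map, coe_mapRingHom]
      rw [coeff_C_mul, coeff_C_mul, map_mul, map_mul]
      exact W.mul_mem _ _ (hle.2 hWd.le) (hWG'' s i j)
    · -- the residues of the derivative
      intro ψ hψ z hz
      have hζP : ζ ∈ P₁.ring := by
        have h1 : (Φ.map (aeval ξ : k[X] →ₐ[k] K₁).toRingHom).eval ζ = 0 := by
          rw [eval_map]
          exact hΦ0
        refine mem_vs_of_root P₁.ring (fun i => ?_) ?_ h1
        · rw [coeff_map]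
          exact aeval_mem_place P₁ hξP _
        · rw [(hΦm.map _).leadingCoeff, map_one]
      set dP : P₁.ring := ⟨algebraMap k K₁ (φ d), P₁.algebraMap_mem _⟩ with hdP
      set τ : P₁.ring := dP * z with hτ
      have hτv : (τ : K₁) = ev3 ι a ξ ζ (derivative M) := by
        rw [hτ, hderM]
        change algebraMap k K₁ (φ d) * (z : K₁) = _
        rw [hz]
      have hψτ : ψ τ = algebraMap k Ω (φ d) * ψ z := by
        rw [hτ, map_mul, hdP, hψ.const]
      have hψτ0 : ψ τ ≠ 0 := by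
        intro h1
        rw [hψ.ker_iff, hτv] at h1
        exact hder h1
      have hroot : aeval (ψ τ) ((X ^ μ * χ).map φ) = 0 := by
        rw [hψ.aeval, hτv, ← ev3_eval₂, hχ, map_add, map_mul, map_mul, hM0, mul_zero, add_zero, ev3_C,
          mul_comm]
        exact nonunit_mul hfP (ev3_mem_place ι a P₁ hξP hζP _)
      have hroot' : aeval (ψ τ) (χ.map φ) = 0 := by
        rw [Polynomial.map_mul, Polynomial.map_pow, map_X, map_mul, map_pow, aeval_X] at hroot
        exact (mul_eq_zero.1 hroot).resolve_left (pow_ne_zero _ hψτ0)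
      have hχlc : algebraMap k Ω (φ χ.leadingCoeff) ≠ 0 := by
        intro h0
        rw [h0, map_zero] at hWχlc
        exact zero_ne_one hWχlc
      have hval : W.valuation (ψ τ) = 1 := by
        refine val_root_unit W (p := χ.map ((algebraMap k Ω).comp φ)) (fun i => ?_) ?_ ?_ ?_
        · rw [coeff_map]
          exact hWχ i
        · rw [leadingCoeff_map_of_leadingCoeff_ne_zero _ hχlc]
          exact hWχlc
        · rw [coeff_map]
          exact hWχ0
        · rw [eval_map, ← eval₂_map, ← aeval_def]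
          exact hroot'
      rw [hψτ, map_mul, hWd, one_mul] at hval
      exact hval

end Pool.Agent.SE
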