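import Pool.Agent.Helper10.SE.Defs2

/-!
# Project SE, block P1, part a: polynomials all of whose roots are in a valuation ring
-/

universe u

set_option linter.unusedSectionVars false

namespace Pool.Agent.SE

open VC Polynomial Pool.Agent.LT Pool.Agent.SC Pool.Agent.GC Pool.Agent.Helper91.Sect Pool.Agent
  Pool.Agent.TW Pool.Agent.TWU Pool.Agent.TWX

section val5

variable {E : Type u} [Field E] {W : ValuationSubring E}

/-- the coefficients of a product of `X - b` with `b ∈ W` -/
theorem prod_coeff_mem5 (s : Multiset E) (hs : ∀ b ∈ s, b ∈ W) (i : ℕ) :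
    ((s.map fun b => X - C b).prod).coeff i ∈ W := by
  have h1 : (s.map fun b => X - C b).prod ∈ lifts (algebraMap W E) := by
    apply Subsemiring.multiset_prod_mem
    intro q hq
    obtain ⟨b, hb, rfl⟩ := Multiset.mem_map.1 hq
    rw [mem_lifts]
    refine ⟨X - C ⟨b, hs b hb⟩, ?_⟩
    rw [Polynomial.map_sub, map_X, map_C]
    rfl
  obtain ⟨P, hP⟩ := (mem_lifts _).1 h1
  rw [← hP, coeff_map]
  exact (P.coeff i).2

theorem unit_of5 {a : E} (h : W.valuation a = 1) : a ∈ W ∧ a ∉ W.nonunits ∧ a⁻¹ ∈ W ∧ a ≠ 0 := by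
  refine ⟨(W.valuation_le_one_iff a).1 h.le, ?_, ?_, ?_⟩
  · rw [ValuationSubring.mem_nonunits_iff, h]
    exact lt_irrefl _
  · rw [← W.valuation_le_one_iff, map_inv₀, h, inv_one]
  · rintro rfl
    rw [map_zero] at h
    exact zero_ne_one h

theorem unit_iff5 {a : E} (h1 : a ∈ W) (h2 : a ∉ W.nonunits) : W.valuation a = 1 := by
  refine le_antisymm ((W.valuation_le_one_iff a).2 h1) ?_
  rw [ValuationSubring.mem_nonunits_iff] at h2
  exact not_lt.1 h2

variable {k : Type u} [Field k] [Algebra k E] [IsAlgClosed E]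

/-- Over the algebraically closed field `E`: leading coefficient and roots in `W` imply coefficients in `W`. -/
theorem coeff_mem5 {Q : k[X]} (hlc : algebraMap k E Q.leadingCoeff ∈ W)
    (hr : ∀ b : E, aeval b Q = 0 → b ∈ W) (i : ℕ) : algebraMap k E (Q.coeff i) ∈ W := by
  have h1 := (IsAlgClosed.splits (Q.map (algebraMap k E))).eq_prod_roots
  rw [← coeff_map, h1, coeff_C_mul, leadingCoeff_map]
  refine W.mul_mem _ _ hlc (prod_coeff_mem5 _ (fun b hb => hr b ?_) i)
  have h2 := isRoot_of_mem_roots hb
  rwa [IsRoot.def, eval_map, ← aeval_def] at h2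

/-- the value of `Q` at `z` is a unit if the leading coefficient and all differences with roots are units -/
theorem eval_unit5 {Q : k[X]} (hlc : W.valuation (algebraMap k E Q.leadingCoeff) = 1) {z : E}
    (hr : ∀ b : E, aeval b Q = 0 → W.valuation (z - b) = 1) : W.valuation (aeval z Q) = 1 := by
  have h1 := (IsAlgClosed.splits (Q.map (algebraMap k E))).eval_eq_prod_roots z
  rw [eval_map, ← aeval_def] at h1
  rw [h1, map_mul, leadingCoeff_map, hlc, one_mul, map_multiset_prod]
  apply Multiset.prod_eq_one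
  intro w hw
  rw [Multiset.map_map] at hw
  obtain ⟨b, hb, rfl⟩ := Multiset.mem_map.1 hw
  have h2 := isRoot_of_mem_roots hb
  rw [IsRoot.def, eval_map, ← aeval_def] at h2
  exact hr b h2

/-- minimal polynomials of elements all of whose conjugates are units -/
theorem minpoly_unit5 [Algebra.IsAlgebraic k E] [CharZero k] {c : E}
    (hc : ∀ σ : E ≃ₐ[k] E, W.valuation (σ c) = 1) :
    (∀ i, algebraMap k E ((minpoly k c).coeff i) ∈ W) ∧ algebraMap k E ((minpoly k c).coeff 0)⁻¹ ∈ W ∧
      (minpoly k c).coeff 0 ≠ 0 := by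
  have hci : IsIntegral k c := Algebra.IsIntegral.isIntegral c
  have hm := minpoly.monic hci
  have hnorm : Normal k E := by
    have : IsAlgClosure k E := ⟨inferInstance, inferInstance⟩
    exact IsAlgClosure.normal k E
  have hroot : ∀ b : E, aeval b (minpoly k c) = 0 → W.valuation b = 1 := by
    intro b hb
    obtain ⟨σ, hσ⟩ := minpoly.exists_algEquiv_of_root' (Algebra.IsAlgebraic.isAlgebraic c) hb
    rw [← hσ]
    exact hc σ
  have hlc : W.valuation (algebraMap k E (minpoly k c).leadingCoeff) = 1 := by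
    rw [hm.leadingCoeff, map_one, map_one]
  have h0 : W.valuation (algebraMap k E ((minpoly k c).coeff 0)) = 1 := by
    have h1 := eval_unit5 (z := (0 : E)) hlc (fun b hb => by
      rw [zero_sub, Valuation.map_neg]
      exact hroot b hb)
    rwa [aeval_def, eval₂_at_zero] at h1
  obtain ⟨-, -, h2, h3⟩ := unit_of5 h0
  refine ⟨coeff_mem5 (unit_of5 hlc).1 (fun b hb => (unit_of5 (hroot b hb)).1), ?_, ?_⟩
  · rw [map_inv₀]
    exact h2
  · intro h4
    rw [h4, map_zero] at h3
    exact h3 rfl

end val5

section dvd5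

variable {k E : Type u} [Field k] [Field E] [Algebra k E] [IsAlgClosed E]

/-- a polynomial all of whose roots are roots of `f` divides a power of `f` -/
theorem dvd_pow5 {P f : k[X]} (hP : P ≠ 0) (h : ∀ b : E, aeval b P = 0 → aeval b f = 0) :
    P ∣ f ^ P.natDegree := by
  rw [← map_dvd_map' (algebraMap k E)]
  have hs := IsAlgClosed.splits (P.map (algebraMap k E))
  have h1 := hs.eq_prod_roots
  have hcard : (P.map (algebraMap k E)).roots.card = P.natDegree := by
    rw [← hs.natDegree_eq_card_roots, natDegree_map]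
  rw [h1, Polynomial.map_pow]
  have hu : IsUnit (C (P.map (algebraMap k E)).leadingCoeff : E[X]) := by
    rw [isUnit_C, isUnit_iff_ne_zero, leadingCoeff_map, _root_.map_ne_zero, leadingCoeff_ne_zero]
    exact hP
  rw [IsUnit.mul_left_dvd hu, ← hcard]
  have h2 : ∀ b ∈ (P.map (algebraMap k E)).roots, X - C b ∣ f.map (algebraMap k E) := by
    intro b hb
    rw [dvd_iff_isRoot]
    have h3 := isRoot_of_mem_roots hb
    rw [IsRoot.def, eval_map, ← aeval_def] at h3 ⊢
    exact h b h3
  generalize (P.map (algebraMap k E)).roots = s at h2 ⊢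
  induction s using Multiset.induction_on with
  | empty => simp
  | cons b s ih =>
    rw [Multiset.map_cons, Multiset.prod_cons, Multiset.card_cons, pow_succ']
    exact mul_dvd_mul (h2 b (Multiset.mem_cons_self b s)) (ih fun b' hb' => h2 b' (Multiset.mem_cons_of_mem hb'))

end dvd5

end Pool.Agent.SE
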