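import Pool.Agent.Helper5.SE.P1a

/-!
# Project SE, block P1, part b: residues at a place of `k(x)` through a root in an algebraically closed field
-/

universe u

set_option linter.unusedSectionVars false

namespace Pool.Agent.SE

open VC Polynomial Pool.Agent.LT Pool.Agent.SC Pool.Agent.GC Pool.Agent.Helper91.Sect Pool.Agent
  Pool.Agent.TW Pool.Agent.TWU Pool.Agent.TWX

section rel5

variable {k K₁ E : Type u} [Field k] [CharZero k] [Field K₁] [Algebra k K₁] [Field E] [Algebra k E]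

/-- `z ∈ K₁` is congruent modulo the place `P` to `A(x)`, and `c = A(ξ)`. -/
def Rel5 (P : Place k K₁) (x : K₁) (ξ : E) (z : K₁) (c : E) : Prop :=
  ∃ A : k[X], z - aeval x A ∈ P.ring.nonunits ∧ c = aeval ξ A

variable {P : Place k K₁} {x : K₁} {ξ : E} {h : k[X]} (hxP : x ∈ P.ring) (hh : Irreducible h)
  (hhx : aeval x h ∈ P.ring.nonunits) (hξ : aeval ξ h = 0)

include hxP in
theorem Rel5.mem {z : K₁} {c : E} (hr : Rel5 P x ξ z c) : z ∈ P.ring := by
  obtain ⟨A, hA, -⟩ := hr
  have h1 := P.ring.add_mem _ _ (P.ring.nonunits_subset hA) (aeval_mem_ring P hxP A)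
  rwa [sub_add_cancel] at h1

theorem Rel5.poly (A : k[X]) : Rel5 P x ξ (aeval x A) (aeval ξ A) :=
  ⟨A, by rw [sub_self]; exact (ValuationSubring.mem_nonunits_iff _).2 (by rw [map_zero]; exact zero_lt_one), rfl⟩

include hxP in
theorem Rel5.mul {z z' : K₁} {c c' : E} (hr : Rel5 P x ξ z c) (hr' : Rel5 P x ξ z' c') :
    Rel5 P x ξ (z * z') (c * c') := by
  have hz := hr.mem hxP
  obtain ⟨A, hA, rfl⟩ := hr
  obtain ⟨B, hB, rfl⟩ := hr'
  refine ⟨A * B, ?_, (map_mul _ _ _).symm⟩
  have h1 : z * z' - aeval x (A * B) = (z' - aeval x B) * z + (z - aeval x A) * aeval x B := by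
    rw [map_mul]
    ring
  rw [h1]
  exact nonunit_add (nonunit_mul hB hz) (nonunit_mul hA (aeval_mem_ring P hxP B))

include hh hξ in
theorem root_dvd5 {A : k[X]} (hA : aeval ξ A = 0) : h ∣ A := by
  by_contra hn
  obtain ⟨u, w, huw⟩ := hh.coprime_iff_not_dvd.2 hn
  have h1 := congrArg (aeval ξ) huw
  rw [map_add, map_mul, map_mul, hξ, hA, mul_zero, mul_zero, add_zero, map_one] at h1
  exact zero_ne_one h1

include hxP hh hhx hξ in
/-- a relation for a nonzero `c` -/
theorem Rel5.ne {z : K₁} {c : E} (hr : Rel5 P x ξ z c) (hc : c ≠ 0) : z ∉ P.ring.nonunits := by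
  obtain ⟨A, hA, rfl⟩ := hr
  intro hz
  have h1 : aeval x A ∈ P.ring.nonunits := by
    have h2 : aeval x A = z + (-1 : K₁) * (z - aeval x A) := by ring
    rw [h2, mul_comm]
    exact nonunit_add hz (nonunit_mul hA (by
      have := P.ring.neg_mem _ P.ring.one_mem
      exact this))
  obtain ⟨B, rfl⟩ := (val_iff_dvd hxP hh hhx A).1 h1
  rw [map_mul, hξ, zero_mul] at hc
  exact hc rfl

include hxP hh hhx hξ in
theorem Rel5.inv {z : K₁} {c : E} (hr : Rel5 P x ξ z c) (hc : c ≠ 0) : Rel5 P x ξ z⁻¹ c⁻¹ := by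
  have hz := hr.mem hxP
  have hzn := hr.ne hxP hh hhx hξ hc
  have hz0 : z ≠ 0 := by
    rintro rfl
    exact hzn ((ValuationSubring.mem_nonunits_iff _).2 (by rw [map_zero]; exact zero_lt_one))
  obtain ⟨hzi⟩ : z⁻¹ ∈ P.ring ∧ True := ⟨(unit_of5 (unit_iff5 hz hzn)).2.2.1, trivial⟩
  obtain ⟨A, hA, rfl⟩ := hr
  have hn : ¬ h ∣ A := by
    rintro ⟨B, rfl⟩
    rw [map_mul, hξ, zero_mul] at hc
    exact hc rfl
  obtain ⟨u, w, huw⟩ := hh.coprime_iff_not_dvd.2 hn
  refine ⟨w, ?_, ?_⟩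
  · have h1 := congrArg (aeval x) huw
    rw [map_add, map_mul, map_mul, map_one] at h1
    have h2 : z⁻¹ - aeval x w = (aeval x h * aeval x u - (z - aeval x A) * aeval x w) * z⁻¹ := by
      have h3 : aeval x h * aeval x u = 1 - aeval x w * aeval x A := by linear_combination h1
      rw [h3]
      field_simp
      ring
    rw [h2]
    refine nonunit_mul ?_ ‹_›
    rw [sub_eq_add_neg, ← mul_neg]
    exact nonunit_add (nonunit_mul hhx (aeval_mem_ring P hxP u))
      (nonunit_mul hA (P.ring.neg_mem _ (aeval_mem_ring P hxP w)))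
  · have h1 := congrArg (aeval ξ) huw
    rw [map_add, map_mul, map_mul, hξ, mul_zero, zero_add, map_one] at h1
    exact (eq_inv_of_mul_eq_one_left h1).symm

include hxP in
theorem Rel5.pow {z : K₁} {c : E} (hr : Rel5 P x ξ z c) (n : ℕ) : Rel5 P x ξ (z ^ n) (c ^ n) := by
  induction n with
  | zero =>
    rw [pow_zero, pow_zero]
    have h1 := Rel5.poly (P := P) (x := x) (ξ := ξ) (1 : k[X])
    rwa [map_one, map_one] at h1
  | succ n ih =>
    rw [pow_succ, pow_succ]
    exact ih.mul hxP hr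

include hxP hh hhx hξ in
theorem Rel5.zpow {z : K₁} {c : E} (hr : Rel5 P x ξ z c) (hc : c ≠ 0) (e : ℤ) : Rel5 P x ξ (z ^ e) (c ^ e) := by
  obtain ⟨n, rfl | rfl⟩ := e.eq_nat_or_neg
  · rw [zpow_natCast, zpow_natCast]
    exact hr.pow hxP n
  · rw [zpow_neg, zpow_neg, zpow_natCast, zpow_natCast]
    exact (hr.pow hxP n).inv hxP hh hhx hξ (pow_ne_zero n hc)

include hxP in
theorem Rel5.prod {ι : Type*} (s : Finset ι) {z : ι → K₁} {c : ι → E} (hr : ∀ i ∈ s, Rel5 P x ξ (z i) (c i)) :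
    Rel5 P x ξ (∏ i ∈ s, z i) (∏ i ∈ s, c i) := by
  classical
  induction s using Finset.induction_on with
  | empty =>
    rw [Finset.prod_empty, Finset.prod_empty]
    have h1 := Rel5.poly (P := P) (x := x) (ξ := ξ) (1 : k[X])
    rwa [map_one, map_one] at h1
  | insert i s hi ih =>
    rw [Finset.prod_insert hi, Finset.prod_insert hi]
    exact (hr i (Finset.mem_insert_self i s)).mul hxP (ih fun j hj => hr j (Finset.mem_insert_of_mem hj))

include hxP hh hhx hξ in
/-- a polynomial relation for `c` holds for the residue of `z` -/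
theorem Rel5.root {z : K₁} {c : E} (hr : Rel5 P x ξ z c) {p : k[X]} (hp : aeval c p = 0) :
    aeval z p ∈ P.ring.nonunits := by
  have hz := hr.mem hxP
  obtain ⟨A, hA, rfl⟩ := hr
  have h1 : aeval ξ (p.comp A) = 0 := by
    rw [aeval_comp, hp]
  obtain ⟨B, hB⟩ := root_dvd5 hh hξ h1
  have h2 : aeval (aeval x A) p = aeval x h * aeval x B := by
    rw [← aeval_comp, hB, map_mul]
  -- `z - A(x)` divides `p(z) - p(A(x))`
  have hAx := aeval_mem_ring P hxP A
  let φ : k →+* P.ring := (algebraMap k K₁).codRestrict P.ring.toSubring P.algebraMap_mem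
  have hev : ∀ w : P.ring, (((p.map φ).eval w : P.ring) : K₁) = aeval (w : K₁) p := by
    intro w
    rw [eval_map, aeval_def]
    exact hom_eval₂ p φ P.ring.subtype w
  obtain ⟨S, hS⟩ := sub_dvd_eval_sub (⟨z, hz⟩ : P.ring) ⟨aeval x A, hAx⟩ (p.map φ)
  have hS1 : (S : K₁) ∈ P.ring := S.2
  have hS2 : aeval z p - aeval (aeval x A) p = (z - aeval x A) * S := by
    have h5 := congrArg (Subtype.val : P.ring → K₁) hS
    have h6 : (((p.map φ).eval (⟨z, hz⟩ : P.ring) : P.ring) : K₁) - (((p.map φ).eval (⟨aeval x A, hAx⟩ : P.ring) : P.ring) : K₁) =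
        (z - aeval x A) * S := h5
    rw [hev, hev] at h6
    exact h6
  have h3 : aeval z p = (z - aeval x A) * S + aeval x h * aeval x B := by
    rw [← h2, ← hS2]
    ring
  rw [h3]
  exact nonunit_add (nonunit_mul hA hS1) (nonunit_mul hhx (aeval_mem_ring P hxP B))

end rel5

end Pool.Agent.SE
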