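import Pool.Agent.Helper5.SE.P1b
import Pool.Agent.Helper29.SE.CG

/-!
# Project SE, block P1, part c: the data of the bad places
-/

universe u

set_option linter.unusedSectionVars false

namespace Pool.Agent.SE

open VC Polynomial Pool.Agent.LT Pool.Agent.SC Pool.Agent.GC Pool.Agent.Helper91.Sect Pool.Agent
  Pool.Agent.TW Pool.Agent.TWU Pool.Agent.TWX

section data5

variable {k K₁ E : Type u} [Field k] [CharZero k] [Field K₁] [Algebra k K₁] [Field E] [Algebra k E]
  [IsAlgClosed E] [Algebra.IsAlgebraic k E]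

/-- good reduction of `f` at `W` -/
structure Red5 (W : ValuationSubring E) (f : k[X]) : Prop where
  deg : 1 ≤ f.natDegree
  mem : ∀ i, algebraMap k E (f.coeff i) ∈ W
  lc : W.valuation (algebraMap k E f.leadingCoeff) = 1
  disc : W.valuation (algebraMap k E f.discr) = 1

variable {W : ValuationSubring E} {f : k[X]}

theorem Red5.ne (h : Red5 W f) : f ≠ 0 := by
  rintro rfl
  have := h.deg
  simp at this

theorem Red5.root_mem (h : Red5 W f) {b : E} (hb : aeval b f = 0) : b ∈ W :=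
  F2_root_mem_of_lead h.mem (unit_of5 h.lc).2.1 h.ne hb

theorem Red5.root_diff (h : Red5 W f) {b b' : E} (hb : aeval b f = 0) (hb' : aeval b' f = 0) (hne : b ≠ b') :
    W.valuation (b - b') = 1 := by
  have h1 : b - b' ∈ W := sub_mem (h.root_mem hb) (h.root_mem hb')
  refine unit_iff5 h1 ?_
  refine F2_root_diff_of_disc h.mem (unit_of5 h.lc).2.1 (unit_of5 h.disc).2.1 ?_ hb hb' hne
  by_contra hdeg
  have h2 : f.natDegree = 1 := by
    have := h.deg
    omega
  classical
  have h3 : (f.map (algebraMap k E)).roots.toFinset.card ≤ 1 := by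
    refine (Multiset.toFinset_card_le _).trans ?_
    refine (card_roots' _).trans ?_
    rw [natDegree_map, h2]
  have h4 : ∀ c : E, aeval c f = 0 → c ∈ (f.map (algebraMap k E)).roots.toFinset := by
    intro c hc
    rw [Multiset.mem_toFinset, mem_roots', IsRoot.def, eval_map, ← aeval_def]
    exact ⟨Polynomial.map_ne_zero h.ne, hc⟩
  exact hne (Finset.card_le_one.1 h3 b (h4 b hb) b' (h4 b' hb'))

variable {x : K₁} (hx : Transcendental k x) (hgen : IntermediateField.adjoin k {x} = ⊤)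
  {r : ℕ} {P : Fin r → k[X]} (hP : ∀ s, P s ≠ 0)
  (hPlc : ∀ s, W.valuation (algebraMap k E (P s).leadingCoeff) = 1)

/-- an irreducible factor of `f` which vanishes at the place -/
theorem exists_factor5 {P₀ : Place k K₁} (hf : f ≠ 0) (hfP : aeval x f ∈ P₀.ring.nonunits) :
    ∃ h : k[X], Irreducible h ∧ h.Monic ∧ h ∣ f ∧ aeval x h ∈ P₀.ring.nonunits := by
  classical
  by_contra hcon
  push Not at hcon
  have h0 : ∀ p ∈ UniqueFactorizationMonoid.normalizedFactors f, P₀.ring.valuation (aeval x p) ≥ 1 := by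
    intro p hp
    have h1 := UniqueFactorizationMonoid.irreducible_of_normalized_factor p hp
    have h2 := UniqueFactorizationMonoid.dvd_of_mem_normalizedFactors hp
    have h3 : p.Monic := (normalize_eq_self_iff_monic h1.ne_zero).1
      (UniqueFactorizationMonoid.normalize_normalized_factor p hp)
    have h4 := hcon p h1 h3 h2
    rw [ValuationSubring.mem_nonunits_iff, not_lt] at h4
    exact h4
  obtain ⟨u, hu⟩ := UniqueFactorizationMonoid.prod_normalizedFactors hf
  obtain ⟨a, ha, hau⟩ := Polynomial.isUnit_iff.1 u.isUnit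
  have ha0 : a ≠ 0 := ha.ne_zero
  have hva : P₀.ring.valuation (algebraMap k K₁ a) = 1 := by
    have h1 := (P₀.ring.valuation_le_one_iff _).2 (P₀.algebraMap_mem a)
    have h2 := (P₀.ring.valuation_le_one_iff _).2 (P₀.algebraMap_mem a⁻¹)
    rw [map_inv₀, map_inv₀] at h2
    have h3 : P₀.ring.valuation (algebraMap k K₁ a) ≠ 0 :=
      (Valuation.ne_zero_iff _).2 ((_root_.map_ne_zero _).2 ha0)
    exact le_antisymm h1 ((inv_le_one₀ (zero_lt_iff.2 h3)).1 h2)
  have h1 : 1 ≤ P₀.ring.valuation (aeval x f) := by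
    rw [← hu, ← hau, map_mul, map_mul, aeval_C, hva, mul_one, map_multiset_prod, map_multiset_prod]
    apply Multiset.one_le_prod
    intro w hw
    rw [Multiset.map_map] at hw
    obtain ⟨p, hp, rfl⟩ := Multiset.mem_map.1 hw
    exact h0 p hp
  rw [ValuationSubring.mem_nonunits_iff] at hfP
  exact absurd hfP (not_lt.2 h1)

include hx hgen hP hPlc in
theorem data_fin5 (hred : Red5 W f) (hPr : ∀ s (b : E), aeval b (P s) = 0 → aeval b f = 0) {P₀ : Place k K₁}
    (hxP : x ∈ P₀.ring) (hfP : aeval x f ∈ P₀.ring.nonunits) (e : Fin r → ℤ) :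
    ∃ (h p : k[X]), PData (∏ s, aeval x (P s) ^ e s) P₀ x (aeval x h) h p ∧ h ∣ f ∧
      (∀ i, algebraMap k E (p.coeff i) ∈ W) ∧ algebraMap k E (p.coeff 0)⁻¹ ∈ W := by
  classical
  obtain ⟨h, hh, hhm, hhf, hhx⟩ := exists_factor5 hred.ne hfP
  have hF := isFF hx hgen
  obtain ⟨ξ, hξ⟩ : ∃ ξ : E, aeval ξ h = 0 := IsAlgClosed.exists_aeval_eq_zero E h
    (by rw [degree_eq_natDegree hh.ne_zero]; exact_mod_cast hh.natDegree_pos.ne')
  choose m Q hQ using fun s => WfDvdMonoid.max_power_factor (hP s) hh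
  have hQn : ∀ s, ¬ h ∣ Q s := fun s => (hQ s).1
  have hQe : ∀ s, P s = h ^ m s * Q s := fun s => (hQ s).2
  have hh0 : aeval x h ≠ 0 := aeval_ne hx hh.ne_zero
  have hordh : ord P₀.ring (aeval x h) = 1 := ord_h hx hgen hxP hh hhx
  have hQ0 : ∀ s, Q s ≠ 0 := fun s h0 => hQn s (by rw [h0]; exact dvd_zero h)
  have hPx : ∀ s, aeval x (P s) ≠ 0 := fun s => aeval_ne hx (hP s)
  have hordP : ∀ s, ord P₀.ring (aeval x (P s)) = m s := by
    intro s
    rw [hQe s, map_mul, map_pow, ord_mul' hF P₀ (pow_ne_zero _ hh0) (aeval_ne hx (hQ0 s)), ord_pow' hF P₀ hh0, hordh,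
      ord_notDvd hx hgen hxP hh hhx (hQn s)]
    ring
  set g : K₁ := ∏ s, aeval x (P s) ^ e s with hg
  have hordg : ord P₀.ring g = ∑ s, e s * m s := by
    rw [hg, ord_prod hF P₀ hPx e Finset.univ]
    exact Finset.sum_congr rfl fun s _ => by rw [hordP s]
  -- the residue of `g π^(-ord g)`
  have hε : g * aeval x h ^ (-ord P₀.ring g) = ∏ s, aeval x (Q s) ^ e s := by
    rw [hordg, ← Finset.sum_neg_distrib, hg]
    have h1 : aeval x h ^ (∑ s, -(e s * (m s : ℤ))) = ∏ s, (aeval x h ^ (-(m s : ℤ))) ^ e s := by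
      have h2 : ∀ A : Finset (Fin r), aeval x h ^ (∑ s ∈ A, -(e s * (m s : ℤ))) = ∏ s ∈ A, (aeval x h ^ (-(m s : ℤ))) ^ e s := by
        intro A
        induction A using Finset.induction_on with
        | empty => simp
        | insert a A ha ih =>
          rw [Finset.sum_insert ha, Finset.prod_insert ha, zpow_add₀ hh0, ih, ← zpow_mul]
          congr 2
          ring
      exact h2 Finset.univ
    rw [h1, ← Finset.prod_mul_distrib]
    refine Finset.prod_congr rfl fun s _ => ?_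
    rw [← mul_zpow]
    congr 1
    rw [hQe s, map_mul, map_pow, zpow_neg, zpow_natCast]
    field_simp
  have hQξ : ∀ (η : E), aeval η h = 0 → ∀ s, W.valuation (aeval η (Q s)) = 1 := by
    intro η hη s
    refine eval_unit5 ?_ ?_
    · have h1 : (P s).leadingCoeff = (Q s).leadingCoeff := by
        rw [hQe s, leadingCoeff_mul, (hhm.pow _).leadingCoeff, one_mul]
      rw [← h1]
      exact hPlc s
    · intro b hb
      refine hred.root_diff ?_ ?_ ?_
      · obtain ⟨q, hq⟩ := hhf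
        rw [hq, map_mul, hη, zero_mul]
      · exact hPr s b (by rw [hQe s, map_mul, hb, mul_zero])
      · rintro rfl
        exact hQn s (root_dvd5 hh hη hb)
  have hQξ0 : ∀ s, aeval ξ (Q s) ≠ 0 := fun s => (unit_of5 (hQξ ξ hξ s)).2.2.2
  set c : E := ∏ s, aeval ξ (Q s) ^ e s with hc
  have hrel : Rel5 P₀ x ξ (∏ s, aeval x (Q s) ^ e s) c :=
    Rel5.prod hxP Finset.univ fun s _ => (Rel5.poly (Q s)).zpow hxP hh hhx hξ (hQξ0 s) (e s)
  have hconj : ∀ σ : E ≃ₐ[k] E, W.valuation (σ c) = 1 := by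
    intro σ
    have hσξ : aeval (σ ξ) h = 0 := by
      have h1 := aeval_algHom_apply (σ : E →ₐ[k] E) ξ h
      rw [hξ, map_zero] at h1
      exact h1
    rw [hc, map_prod, map_prod]
    refine Finset.prod_eq_one fun s _ => ?_
    rw [map_zpow₀, map_zpow₀]
    have h1 : σ (aeval ξ (Q s)) = aeval (σ ξ) (Q s) := (aeval_algHom_apply (σ : E →ₐ[k] E) ξ (Q s)).symm
    rw [h1, hQξ (σ ξ) hσξ s, one_zpow]
  obtain ⟨h1, h2, h3⟩ := minpoly_unit5 hconj
  refine ⟨h, minpoly k c, ⟨hxP, hh, hhx, hall_x hx hgen hxP hh hhx, hh0, hordh, minpoly.monic (Algebra.IsIntegral.isIntegral c),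
    h3, ?_⟩, hhf, h1, h2⟩
  rw [hε]
  exact hrel.root hxP hh hhx hξ (minpoly.aeval k c)

include hx hgen hP hPlc in
theorem data_inf5 {P₀ : Place k K₁} (hxP : x⁻¹ ∈ P₀.ring.nonunits) (e : Fin r → ℤ) :
    ∃ p : k[X], PData (∏ s, aeval x (P s) ^ e s) P₀ x⁻¹ x⁻¹ X p ∧
      (∀ i, algebraMap k E (p.coeff i) ∈ W) ∧ algebraMap k E (p.coeff 0)⁻¹ ∈ W := by
  classical
  have hF := isFF hx hgen
  have hxi := transc_inv hx
  have hgi := gen_inv hgen
  have hxP' : x⁻¹ ∈ P₀.ring := P₀.ring.nonunits_subset hxP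
  have hXx : aeval x⁻¹ (X : k[X]) ∈ P₀.ring.nonunits := by
    rw [aeval_X]
    exact hxP
  have hx0 : x ≠ 0 := by
    rintro rfl
    exact hx isAlgebraic_zero
  have hξ : aeval (0 : E) (X : k[X]) = 0 := aeval_X _
  have hord : ord P₀.ring x⁻¹ = 1 := by
    have h1 := ord_h hxi hgi hxP' irreducible_X hXx
    rwa [aeval_X] at h1
  have hrev : ∀ s, aeval x (P s) = aeval x⁻¹ (P s).reverse * x ^ (P s).natDegree := by
    intro s
    let inv : Invertible x := invertibleOfNonzero hx0
    have h1 := eval₂_reverse_mul_pow (algebraMap k K₁) x (P s)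
    rw [invOf_eq_inv] at h1
    exact h1.symm
  have hnd : ∀ s, ¬ (X : k[X]) ∣ (P s).reverse := by
    intro s h1
    rw [X_dvd_iff, coeff_zero_reverse] at h1
    exact hP s (leadingCoeff_eq_zero.1 h1)
  have hr0 : ∀ s, aeval x⁻¹ (P s).reverse ≠ 0 := fun s => aeval_ne hxi (by
    rw [Ne, reverse_eq_zero]
    exact hP s)
  have hPx : ∀ s, aeval x (P s) ≠ 0 := fun s => aeval_ne hx (hP s)
  have hordP : ∀ s, ord P₀.ring (aeval x (P s)) = -((P s).natDegree : ℤ) := by
    intro s
    rw [hrev s, ord_mul' hF P₀ (hr0 s) (pow_ne_zero _ hx0), ord_pow' hF P₀ hx0,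
      ord_notDvd hxi hgi hxP' irreducible_X hXx (hnd s), ord_x hx hgen hxP]
    ring
  set g : K₁ := ∏ s, aeval x (P s) ^ e s with hg
  have hordg : ord P₀.ring g = ∑ s, -(e s * ((P s).natDegree : ℤ)) := by
    rw [hg, ord_prod hF P₀ hPx e Finset.univ]
    exact Finset.sum_congr rfl fun s _ => by rw [hordP s]; ring
  have hε : g * x⁻¹ ^ (-ord P₀.ring g) = ∏ s, aeval x⁻¹ (P s).reverse ^ e s := by
    rw [hordg, inv_zpow', neg_neg, hg]
    have h2 : ∀ A : Finset (Fin r), x ^ (∑ s ∈ A, -(e s * ((P s).natDegree : ℤ))) = ∏ s ∈ A, (x ^ (-((P s).natDegree : ℤ))) ^ e s := by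
      intro A
      induction A using Finset.induction_on with
      | empty => simp
      | insert a A ha ih =>
        rw [Finset.sum_insert ha, Finset.prod_insert ha, zpow_add₀ hx0, ih, ← zpow_mul]
        congr 2
        ring
    rw [h2 Finset.univ, ← Finset.prod_mul_distrib]
    refine Finset.prod_congr rfl fun s _ => ?_
    rw [← mul_zpow]
    congr 1
    rw [hrev s, zpow_neg, zpow_natCast]
    field_simp
  have hval : ∀ s, aeval (0 : E) (P s).reverse = algebraMap k E (P s).leadingCoeff := by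
    intro s
    rw [aeval_def, eval₂_at_zero, coeff_zero_reverse]
  have hval0 : ∀ s, aeval (0 : E) (P s).reverse ≠ 0 := by
    intro s
    rw [hval s]
    exact (unit_of5 (hPlc s)).2.2.2
  set c : E := ∏ s, aeval (0 : E) (P s).reverse ^ e s with hc
  have hrel : Rel5 P₀ x⁻¹ (0 : E) (∏ s, aeval x⁻¹ (P s).reverse ^ e s) c :=
    Rel5.prod hxP' Finset.univ fun s _ => (Rel5.poly (P s).reverse).zpow hxP' irreducible_X hXx hξ (hval0 s) (e s)
  have hconj : ∀ σ : E ≃ₐ[k] E, W.valuation (σ c) = 1 := by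
    intro σ
    rw [hc, map_prod, map_prod]
    refine Finset.prod_eq_one fun s _ => ?_
    rw [map_zpow₀, map_zpow₀, hval s, AlgEquiv.commutes, hPlc s, one_zpow]
  obtain ⟨h1, h2, h3⟩ := minpoly_unit5 hconj
  refine ⟨minpoly k c, ⟨hxP', irreducible_X, hXx, hall_x hxi hgi hxP' irreducible_X hXx, inv_ne_zero hx0, hord,
    minpoly.monic (Algebra.IsIntegral.isIntegral c), h3, ?_⟩, h1, h2⟩
  rw [hε]
  exact hrel.root hxP' irreducible_X hXx hξ (minpoly.aeval k c)

end data5

end Pool.Agent.SE
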